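import Pool.Agent.Lib.MP_29e17e_pr.P.Wt

namespace Pool.Agent.PERC29
end Pool.Agent.PERC29
namespace Pool.Agent.PERC29.AE
end Pool.Agent.PERC29.AE
namespace Pool.Agent.PERC29.DZ
end Pool.Agent.PERC29.DZ
namespace Pool.Agent.PERC29.OB
end Pool.Agent.PERC29.OB
namespace Pool.Agent.PERC29.QQ
end Pool.Agent.PERC29.QQ

set_option autoImplicit false
set_option linter.unusedSectionVars false

/-! Rows 29p-C1 .. C3: the number of the points of a class in a box, and the lower bound for the sum of the two-point function over a class. -/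

open Finset

namespace Pool.Agent.PERC29.PP

open Pool.Agent.PERC29 Pool.Agent.PERC29.AE Pool.Agent.PERC29.OB Pool.Agent.PERC29.QQ Pool.Agent.PERC29.DZ

/-- Row C1. One coordinate: in a window of length `m ≤ L - A` there are at least `m / n` numbers in a given class mod `n` (`Nat.count_modEq_card`, or: for `j < m / n` the window `[A + j n, A + (j+1) n)` contains one, `A + j n + ((w - A) mod n)`: injective in `j`). -/
lemma cnt_one {L n A m : ℕ} (hn : 1 ≤ n) (hA : A + m ≤ L) (w : ZMod n) :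
    m / n ≤ (Finset.univ.filter (fun v : Fin L => ((v : ℕ) : ZMod n) = w ∧ A ≤ (v : ℕ) ∧ (v : ℕ) < A + m)).card := by
  have hnz : NeZero n := ⟨by omega⟩
  have hr : (w - (A : ZMod n)).val < n := ZMod.val_lt _
  have hw : ∀ j : ℕ, ((A + j * n + (w - (A : ZMod n)).val : ℕ) : ZMod n) = w := by
    intro j
    push_cast
    rw [ZMod.natCast_zmod_val, ZMod.natCast_self, mul_zero, add_zero, add_sub_cancel]
  have hb : ∀ j, j < m / n → A + j * n + (w - (A : ZMod n)).val < A + m := by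
    intro j hj
    have h1 : (j + 1) * n ≤ m / n * n := Nat.mul_le_mul_right _ hj
    have h2 : m / n * n ≤ m := Nat.div_mul_le_self m n
    rw [Nat.add_mul, Nat.one_mul] at h1
    omega
  have hinj : ((Finset.range (m / n)).image (fun j => A + j * n + (w - (A : ZMod n)).val)).card = m / n := by
    rw [Finset.card_image_of_injective _ (fun i j hij => ?_), Finset.card_range]
    have h1 : i * n = j * n := by
      have h2 : A + i * n + (w - (A : ZMod n)).val = A + j * n + (w - (A : ZMod n)).val := hij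
      omega
    exact Nat.eq_of_mul_eq_mul_right (by omega) h1
  rw [← hinj]
  refine le_trans (Finset.card_le_card ?_) (Finset.card_image_le (f := fun v : Fin L => (v : ℕ)))
  intro x hx
  obtain ⟨j, hj, rfl⟩ := Finset.mem_image.1 hx
  have hj' := hb j (Finset.mem_range.1 hj)
  refine Finset.mem_image.2 ⟨⟨A + j * n + (w - (A : ZMod n)).val, by omega⟩, ?_, rfl⟩
  rw [Finset.mem_filter]
  exact ⟨Finset.mem_univ _, hw j, by
    change A ≤ A + j * n + (w - (A : ZMod n)).val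
    omega, hj'⟩

open scoped Classical in
/-- Row C1. Product over the coordinates: the set is a `Fintype.piFinset` (`Fintype.card_piFinset`, `Finset.pow_card_le_prod` or `Finset.prod_le_prod'`). -/
lemma cnt_all {d L n m : ℕ} (hn : 1 ≤ n) (A : Fin d → ℕ) (hA : ∀ i, A i + m ≤ L) (w : Fin d → ZMod n) :
    (m / n) ^ d ≤ (Finset.univ.filter (fun y : Fin d → Fin L => cla n y = w ∧ ∀ i, A i ≤ (y i : ℕ) ∧ (y i : ℕ) < A i + m)).card := by
  have hset : Finset.univ.filter (fun y : Fin d → Fin L => cla n y = w ∧ ∀ i, A i ≤ (y i : ℕ) ∧ (y i : ℕ) < A i + m) =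
      Fintype.piFinset (fun i => Finset.univ.filter (fun v : Fin L => ((v : ℕ) : ZMod n) = w i ∧ A i ≤ (v : ℕ) ∧ (v : ℕ) < A i + m)) := by
    ext y
    rw [Finset.mem_filter, Fintype.mem_piFinset]
    constructor
    · rintro ⟨_, h1, h2⟩ i
      rw [Finset.mem_filter]
      exact ⟨Finset.mem_univ _, congrFun h1 i, h2 i⟩
    · intro h
      refine ⟨Finset.mem_univ _, funext fun i => ?_, fun i => ?_⟩
      · exact (Finset.mem_filter.1 (h i)).2.1
      · exact (Finset.mem_filter.1 (h i)).2.2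
  rw [hset, Fintype.card_piFinset]
  calc (m / n) ^ d = ∏ _i : Fin d, m / n := by rw [Finset.prod_const, Finset.card_univ, Fintype.card_fin]
    _ ≤ _ := Finset.prod_le_prod (fun _ _ => Nat.zero_le _) fun i _ => cnt_one hn (hA i) (w i)

/-- Row C2. A box in a box: `Rch` / `cu_map` (Y/Bx.lean, `emb_of`), `Ex_pul` (V/Bx.lean). -/
lemma ta_box {d l L : ℕ} [Fintype (boxG d l).edgeSet] [Fintype (boxG d L).edgeSet] {p : ℝ} (h0 : 0 ≤ p) (h1 : p ≤ 1) (φ : boxG d l ↪g boxG d L) (x y : Fin d → Fin l) :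
    ta (gends (boxG d l)) p x y ≤ ta (gends (boxG d L)) p (φ x) (φ y) := by
  classical
  unfold ta
  rw [← Ex_pul φ p (fun ω => if y ∈ cu (gends (boxG d l)) ω x then (1 : ℝ) else 0)]
  refine Ex_mono h0 h1 fun ω => ?_
  by_cases h : y ∈ cu (gends (boxG d l)) (pul φ ω) x
  · rw [if_pos h, if_pos (AE.cu_map (emb_of φ) h)]
  · rw [if_neg h]
    split_ifs <;> norm_num

open scoped Classical in
/-- Row C3. The box of side `8 m` in the box of side `2 N + 1` at `z i = N - 4 m` (`box_box`, V/Bx.lean), so that `x i = 4 m` is the preimage of the centre. `Y` = the points `y` of the class with `N - 4 m + A i ≤ y i < N - 4 m + A i + m`, where `A i = 5 m` (`cnt_all`: at least `(m/n)^d ≥ (m/(2n))^d` points, as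
`m ≥ n`). The preimage `x'` of `y` has `5 m ≤ x' i < 6 m`, so it is `bul` (side `8 m`), and `nd x x' ≥ m`, `8 m ≤ 8 (1 + nd)`. `hlow` for the box of side `8 m`, `ta_box`. The sum is at least `(m/(2n))^d c1/(8m)^(d-2) = c1 m²/(2^d 8^(d-2) n^d)`. -/
theorem class_low {d n N m : ℕ} (hd : 2 ≤ d) (hn : 1 ≤ n) (hnm : n ≤ m) (hm : 4 * m ≤ N) [Fintype (boxG d (8 * m)).edgeSet] [Fintype (boxG d (2 * N + 1)).edgeSet] {p c1 : ℝ} (h0 : 0 ≤ p) (h1 : p ≤ 1) (hc1 : 0 ≤ c1)
    (hlow : ∀ x y : Fin d → Fin (8 * m), bul x → bul y → 8 * m ≤ 8 * (1 + nd x y) → c1 / ((8 * m : ℕ) : ℝ) ^ (d - 2) ≤ ta (gends (boxG d (8 * m))) p x y) (w : Fin d → ZMod n) :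
    ∃ Y : Finset (Fin d → Fin (2 * N + 1)), (∀ y ∈ Y, cla n y = w) ∧
      c1 / (2 ^ d * 8 ^ (d - 2)) * ((m : ℝ) ^ 2 / (n : ℝ) ^ d) ≤ ∑ y ∈ Y, ta (gends (boxG d (2 * N + 1))) p (ctr d N) y := by
  have hm1 : 1 ≤ m := le_trans hn hnm
  obtain ⟨φ, hφ⟩ := box_box (d := d) (l := 8 * m) (n := 2 * N + 1) (fun _ => N - 4 * m) (by
    intro i
    show N - 4 * m + 8 * m ≤ 2 * N + 1
    omega)
  have hlt0 : 4 * m < 8 * m := by omega
  have hctr : φ (fun _ => (⟨4 * m, hlt0⟩ : Fin (8 * m))) = ctr d N := by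
    funext i
    apply Fin.ext
    rw [hφ]
    simp only [ctr]
    omega
  have hb0 : bul (fun _ : Fin d => (⟨4 * m, hlt0⟩ : Fin (8 * m))) := by
    intro i
    constructor
    · show 8 * m ≤ 4 * (4 * m)
      omega
    · show 4 * (4 * m) ≤ 3 * (8 * m)
      omega
  have hcard := cnt_all (L := 2 * N + 1) (m := m) hn (fun _ : Fin d => N + m) (by
    intro i
    show N + m + m ≤ 2 * N + 1
    omega) w
  have key : ∀ y ∈ (Finset.univ.filter (fun y : Fin d → Fin (2 * N + 1) =>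
      cla n y = w ∧ ∀ i, N + m ≤ (y i : ℕ) ∧ (y i : ℕ) < N + m + m)),
      c1 / ((8 * m : ℕ) : ℝ) ^ (d - 2) ≤ ta (gends (boxG d (2 * N + 1))) p (ctr d N) y := by
    intro y hy
    have hy2 := (Finset.mem_filter.1 hy).2.2
    have hlt : ∀ i, (y i : ℕ) - (N - 4 * m) < 8 * m := by
      intro i
      have := hy2 i
      omega
    have hφx : φ (fun i => (⟨(y i : ℕ) - (N - 4 * m), hlt i⟩ : Fin (8 * m))) = y := by
      funext i
      apply Fin.ext
      rw [hφ]
      have := hy2 i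
      show N - 4 * m + ((y i : ℕ) - (N - 4 * m)) = (y i : ℕ)
      omega
    have hb1 : bul (fun i => (⟨(y i : ℕ) - (N - 4 * m), hlt i⟩ : Fin (8 * m))) := by
      intro i
      have := hy2 i
      constructor
      · show 8 * m ≤ 4 * ((y i : ℕ) - (N - 4 * m))
        omega
      · show 4 * ((y i : ℕ) - (N - 4 * m)) ≤ 3 * (8 * m)
        omega
    have hd0 : 0 < d := by omega
    have hnd : m ≤ nd (fun _ => (⟨4 * m, hlt0⟩ : Fin (8 * m)))
        (fun i => (⟨(y i : ℕ) - (N - 4 * m), hlt i⟩ : Fin (8 * m))) := by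
      unfold nd
      refine le_trans ?_ (Finset.le_sup (Finset.mem_univ (⟨0, hd0⟩ : Fin d)))
      have := hy2 ⟨0, hd0⟩
      show m ≤ (4 * m - ((y ⟨0, hd0⟩ : ℕ) - (N - 4 * m))) + (((y ⟨0, hd0⟩ : ℕ) - (N - 4 * m)) - 4 * m)
      omega
    have h := hlow _ _ hb0 hb1 (by omega)
    have h2 := ta_box h0 h1 φ (fun _ => (⟨4 * m, hlt0⟩ : Fin (8 * m)))
      (fun i => (⟨(y i : ℕ) - (N - 4 * m), hlt i⟩ : Fin (8 * m)))
    rw [hctr, hφx] at h2
    exact le_trans h h2
  refine ⟨Finset.univ.filter (fun y : Fin d → Fin (2 * N + 1) =>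
      cla n y = w ∧ ∀ i, N + m ≤ (y i : ℕ) ∧ (y i : ℕ) < N + m + m), fun y hy => (Finset.mem_filter.1 hy).2.1, ?_⟩
  have hsum := Finset.card_nsmul_le_sum _ _ _ key
  refine le_trans ?_ hsum
  rw [nsmul_eq_mul]
  have hn0 : (0 : ℝ) < n := by exact_mod_cast hn
  have hm0 : (0 : ℝ) < m := by exact_mod_cast hm1
  have hq : (m : ℝ) / (2 * n) ≤ ((m / n : ℕ) : ℝ) := by
    have h3 : 1 ≤ m / n := (Nat.one_le_div_iff hn).2 hnm
    have h4 : m < n * (m / n + 1) := Nat.lt_mul_div_succ m hn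
    have h5 : m ≤ m / n * (2 * n) := by nlinarith
    rw [div_le_iff₀ (by positivity)]
    exact_mod_cast h5
  have hpw : ((m : ℝ) / (2 * n)) ^ d ≤ ((m / n : ℕ) : ℝ) ^ d :=
    pow_le_pow_left₀ (by positivity) hq d
  have hcR : (((m / n : ℕ) : ℝ)) ^ d ≤ ((Finset.univ.filter (fun y : Fin d → Fin (2 * N + 1) =>
      cla n y = w ∧ ∀ i, N + m ≤ (y i : ℕ) ∧ (y i : ℕ) < N + m + m)).card : ℝ) := by
    exact_mod_cast hcard
  have hkap : 0 ≤ c1 / ((8 * m : ℕ) : ℝ) ^ (d - 2) := by positivity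
  refine le_trans (le_of_eq ?_) (mul_le_mul_of_nonneg_right (le_trans hpw hcR) hkap)
  obtain ⟨e, rfl⟩ : ∃ e, d = e + 2 := ⟨d - 2, by omega⟩
  rw [show e + 2 - 2 = e by omega]
  push_cast
  rw [div_pow, mul_pow, mul_pow, pow_add (m : ℝ) e 2]
  field_simp

end Pool.Agent.PERC29.PP
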