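import Pool.Agent.Lib.MP_29e17e_pr.V.Bx
import Pool.Agent.Lib.MP_29e17e_pr.Z.Gn

namespace Pool.Agent.PERC29
end Pool.Agent.PERC29
namespace Pool.Agent.PERC29.AE
end Pool.Agent.PERC29.AE
namespace Pool.Agent.PERC29.DZ
end Pool.Agent.PERC29.DZ
namespace Pool.Agent.PERC29.OB
end Pool.Agent.PERC29.OB
namespace Pool.Agent.PERC29.QQ
end Pool.Agent.PERC29.QQ

set_option autoImplicit false
set_option linter.unusedSectionVars false

/-! Rows 29p-R1 .. R3: the two-point function in a box just below `pc` (Russo's formula). -/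

open Finset

namespace Pool.Agent.PERC29.PP

open Pool.Agent.PERC29 Pool.Agent.PERC29.AE Pool.Agent.PERC29.OB Pool.Agent.PERC29.QQ Pool.Agent.PERC29.DZ

section gen

variable {V : Type} [Fintype V] [DecidableEq V] {E : Type} [Fintype E] [DecidableEq E] {ends : E → Sym2 V}

private lemma R1_two_ind (u : V) (A B : Finset V) (h : A ⊆ B) : (if u ∈ A then (1 : ℝ) else 0) ≤ if u ∈ B then (1 : ℝ) else 0 := by
  by_cases hu : u ∈ A
  · rw [if_pos hu, if_pos (h hu)]
  · rw [if_neg hu]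
    split_ifs <;> norm_num

/-- Opening one edge: a connection of the new configuration uses the edge at most once. -/
private lemma R1_upd {ω : E → Bool} {e : E} {x z : V} (h : Rch ends (Function.update ω e true) Set.univ x z) :
    Rch ends ω Set.univ x z ∨ ∃ a b, ends e = s(a, b) ∧ Rch ends ω Set.univ x a ∧ Rch ends ω Set.univ b z := by
  induction h with
  | refl => exact Or.inl (Rch.refl x)
  | @tail c d _ hcd ih =>
    obtain ⟨-, -, e1, h3, h4⟩ := hcd
    by_cases he : e1 = e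
    · subst he
      rcases ih with ih | ⟨a, b, h5, h6, h7⟩
      · exact Or.inr ⟨c, d, h4, ih, Rch.refl d⟩
      · rw [h4] at h5
        rcases Sym2.eq_iff.1 h5 with ⟨h8, h9⟩ | ⟨h8, h9⟩
        · exact Or.inr ⟨c, d, h4, h8 ▸ h6, Rch.refl d⟩
        · exact Or.inl (h9 ▸ h6)
    · rw [Function.update_of_ne he] at h3
      rcases ih with ih | ⟨a, b, h5, h6, h7⟩
      · exact Or.inl (Relation.ReflTransGen.tail ih ⟨trivial, trivial, e1, h3, h4⟩)
      · exact Or.inr ⟨a, b, h5, h6, Relation.ReflTransGen.tail h7 ⟨trivial, trivial, e1, h3, h4⟩⟩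

open scoped Classical in
private lemma R1_edge (ω : E → Bool) (e : E) (x y : V) :
    (if ω e = true then 0 else (if y ∈ cu ends (Function.update ω e true) x then (1 : ℝ) else 0) - (if y ∈ cu ends ω x then 1 else 0)) ≤
      ∑ u, ∑ v, (if ends e = s(u, v) ∧ (u ∈ cu ends ω x ∧ v ∈ cu ends ω y ∧ y ∉ cu ends ω x) then (1 : ℝ) else 0) := by
  have hnn : (0 : ℝ) ≤ ∑ u, ∑ v, (if ends e = s(u, v) ∧ (u ∈ cu ends ω x ∧ v ∈ cu ends ω y ∧ y ∉ cu ends ω x) then (1 : ℝ) else 0) :=
    Finset.sum_nonneg fun u _ => Finset.sum_nonneg fun v _ => by split_ifs <;> norm_num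
  by_cases hω : ω e = true
  · rw [if_pos hω]
    exact hnn
  · rw [if_neg hω]
    by_cases h1 : y ∈ cu ends ω x
    · rw [if_pos h1]
      refine le_trans ?_ hnn
      split_ifs <;> norm_num
    · rw [if_neg h1, sub_zero]
      by_cases h2 : y ∈ cu ends (Function.update ω e true) x
      · rw [if_pos h2]
        rcases R1_upd (mem_cu.1 h2) with h3 | ⟨a, b, h5, h6, h7⟩
        · exact absurd (mem_cu.2 h3) h1
        · have h8 : (1 : ℝ) = (if ends e = s(a, b) ∧ (a ∈ cu ends ω x ∧ b ∈ cu ends ω y ∧ y ∉ cu ends ω x) then (1 : ℝ) else 0) := by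
            rw [if_pos ⟨h5, mem_cu.2 h6, mem_cu.2 h7.symm, h1⟩]
          refine h8.le.trans ?_
          refine le_trans ?_ (Finset.single_le_sum (f := fun u => ∑ v, (if ends e = s(u, v) ∧ (u ∈ cu ends ω x ∧ v ∈ cu ends ω y ∧ y ∉ cu ends ω x) then (1 : ℝ) else 0))
            (fun u _ => Finset.sum_nonneg fun v _ => by split_ifs <;> norm_num) (Finset.mem_univ a))
          exact Finset.single_le_sum (f := fun v => (if ends e = s(a, v) ∧ (a ∈ cu ends ω x ∧ v ∈ cu ends ω y ∧ y ∉ cu ends ω x) then (1 : ℝ) else 0))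
            (fun v _ => by split_ifs <;> norm_num) (Finset.mem_univ b)
      · rw [if_neg h2]
        exact hnn

open scoped Classical in
private lemma R1_point (hinj : Function.Injective ends) (ω : E → Bool) (x y : V) :
    ∑ e, (if ω e = true then 0 else (if y ∈ cu ends (Function.update ω e true) x then (1 : ℝ) else 0) - (if y ∈ cu ends ω x then 1 else 0)) ≤
      ∑ u, ∑ v, (if ∃ e, ends e = s(u, v) then (if u ∈ cu ends ω x ∧ v ∈ cu ends ω y ∧ y ∉ cu ends ω x then (1 : ℝ) else 0) else 0) := by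
  refine (Finset.sum_le_sum fun e _ => R1_edge ω e x y).trans ?_
  rw [Finset.sum_comm]
  refine Finset.sum_le_sum fun u _ => ?_
  rw [Finset.sum_comm]
  refine Finset.sum_le_sum fun v _ => ?_
  by_cases hv : ∃ e, ends e = s(u, v)
  · rw [if_pos hv]
    obtain ⟨e, he⟩ := hv
    rw [Finset.sum_eq_single e]
    · by_cases h2 : u ∈ cu ends ω x ∧ v ∈ cu ends ω y ∧ y ∉ cu ends ω x
      · rw [if_pos ⟨he, h2⟩, if_pos h2]
      · rw [if_neg (fun h => h2 h.2), if_neg h2]
    · intro e' _ hne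
      rw [if_neg]
      rintro ⟨h3, -⟩
      exact hne (hinj (h3.trans he.symm))
    · intro hh
      exact absurd (Finset.mem_univ _) hh
  · rw [if_neg hv]
    apply le_of_eq
    apply Finset.sum_eq_zero
    intro e _
    rw [if_neg]
    rintro ⟨h3, -⟩
    exact hv ⟨e, h3⟩

private lemma R1_symm (p : ℝ) (x y : V) : ta ends p x y = ta ends p y x := by
  unfold ta
  refine Ex_congr fun ω => ?_
  exact if_congr cu_symm rfl rfl

private lemma R1_mono {p q : ℝ} (h0 : 0 ≤ p) (hpq : p ≤ q) (h1 : q ≤ 1) (x y : V) : ta ends p x y ≤ ta ends q x y := by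
  unfold ta
  refine Ex_mono_p h0 hpq h1 _ fun ω ω' h => ?_
  refine R1_two_ind y _ _ ?_
  intro z hz
  exact mem_cu.2 ((mem_cu.1 hz).mono h le_rfl)

open scoped Classical in
/-- Row R1. The clusters of `x` and `y` are different and contain `u` and `v`: at most `ta x u * ta y v` (BK: the path from `x` to `u` and the path from `y` to `v` are disjoint, they lie in different clusters; see the proof of `tree_graph`, Tree.lean, `dsj`, `Pth`, `opn`). -/
lemma two_cl {p : ℝ} (h0 : 0 ≤ p) (h1 : p ≤ 1) (x y u v : V) :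
    Ex p (fun ω => if u ∈ cu ends ω x ∧ v ∈ cu ends ω y ∧ y ∉ cu ends ω x then (1 : ℝ) else 0) ≤ ta ends p x u * ta ends p y v := by
  have h2 := two (ends := ends) h0 h1 x y (fun A => if u ∈ A then (1 : ℝ) else 0) (fun A => by split_ifs <;> norm_num)
    (fun A => if v ∈ A then (1 : ℝ) else 0) (fun A => by split_ifs <;> norm_num) (fun A B h => R1_two_ind v A B h)
  refine le_trans (le_of_eq ?_) h2
  refine Ex_congr fun ω => ?_
  by_cases hy : y ∈ cu ends ω x
  · rw [if_neg (fun h => h.2.2 hy), if_pos hy, zero_mul]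
  · by_cases hu : u ∈ cu ends ω x
    · by_cases hv : v ∈ cu ends ω y
      · rw [if_pos ⟨hu, hv, hy⟩, if_neg hy, if_pos hu, if_pos hv]
        norm_num
      · rw [if_neg (fun h => hv h.2.1), if_neg hv, mul_zero, mul_zero]
    · rw [if_neg (fun h => hu h.1), if_neg hu, zero_mul, mul_zero]

open scoped Classical in
/-- Row R1. Russo: `Ex_hasDerivAt` (used for `russo`, Z/Cs.lean) for `f ω = if y ∈ cu ω x then 1 else 0`: opening the closed edge `e = s(u, v)` joins `x` and `y` only if `y ∉ cu ω x` and (`u ∈ cu ω x`, `v ∈ cu ω y` or the same with `u`, `v` exchanged); so the derivative at `t` is at most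
`(1-t)⁻¹ ∑ u, ∑ v, (if there is an edge e = s(u, v) then P_t(u ∈ cu x, v ∈ cu y, y ∉ cu x) else 0)` (`ends` is injective), which is at most `(1-q)⁻¹ ∑ ∑ ta q x u * ta q v y` for `t ≤ q < 1` (`two_cl`, `ta_symm`, monotonicity of `ta` in the parameter: `Ex_mono_p`);
mean value theorem (`Convex.image_sub_le_mul_sub_of_deriv_le` or `image_sub_le_mul_sub_of_deriv_le`). -/
theorem ta_diff (hinj : Function.Injective ends) {p q : ℝ} (h0 : 0 ≤ p) (hpq : p ≤ q) (hq : q < 1) (x y : V) :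
    ta ends q x y - ta ends p x y ≤ (q - p) * ((1 - q)⁻¹ * ∑ u, ∑ v, (if ∃ e, ends e = s(u, v) then ta ends q x u * ta ends q v y else 0)) := by
  have hD : ∀ t : ℝ, t < 1 → HasDerivAt (fun t : ℝ => ta ends t x y) ((1 - t)⁻¹ * Ex t (fun ω => ∑ e, (if ω e = true then 0 else
      (if y ∈ cu ends (Function.update ω e true) x then (1 : ℝ) else 0) - (if y ∈ cu ends ω x then 1 else 0)))) t :=
    fun t ht => Ex_hasDerivAt t (fun ω => if y ∈ cu ends ω x then (1 : ℝ) else 0) (ne_of_lt ht)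
  have hS : ∀ t : ℝ, 0 ≤ t → t ≤ q → Ex t (fun ω => ∑ e, (if ω e = true then 0 else
      (if y ∈ cu ends (Function.update ω e true) x then (1 : ℝ) else 0) - (if y ∈ cu ends ω x then 1 else 0))) ≤
      ∑ u, ∑ v, (if ∃ e, ends e = s(u, v) then ta ends q x u * ta ends q v y else 0) := by
    intro t ht htq
    have ht1 : t ≤ 1 := htq.trans hq.le
    refine (Ex_mono ht ht1 fun ω => R1_point hinj ω x y).trans ?_
    rw [Ex_sum]
    refine Finset.sum_le_sum fun u _ => ?_
    rw [Ex_sum]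
    refine Finset.sum_le_sum fun v _ => ?_
    by_cases hv : ∃ e, ends e = s(u, v)
    · simp only [if_pos hv]
      refine (two_cl ht ht1 x y u v).trans ?_
      rw [R1_symm q v y]
      exact mul_le_mul (R1_mono ht htq hq.le x u) (R1_mono ht htq hq.le y v) (ta_nonneg ht ht1 y v) (ta_nonneg (ht.trans htq) hq.le x u)
    · simp only [if_neg hv]
      rw [Ex_const]
  have hSn : 0 ≤ ∑ u, ∑ v, (if ∃ e, ends e = s(u, v) then ta ends q x u * ta ends q v y else 0) := by
    refine Finset.sum_nonneg fun u _ => Finset.sum_nonneg fun v _ => ?_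
    split_ifs
    · exact mul_nonneg (ta_nonneg (h0.trans hpq) hq.le x u) (ta_nonneg (h0.trans hpq) hq.le v y)
    · exact le_rfl
  have h2 := Convex.image_sub_le_mul_sub_of_deriv_le (convex_Icc p q) (f := fun t : ℝ => ta ends t x y)
    (fun t ht => (hD t (lt_of_le_of_lt ht.2 hq)).continuousAt.continuousWithinAt)
    (fun t ht => (hD t (by rw [interior_Icc] at ht; exact lt_trans ht.2 hq)).differentiableAt.differentiableWithinAt)
    (C := (1 - q)⁻¹ * ∑ u, ∑ v, (if ∃ e, ends e = s(u, v) then ta ends q x u * ta ends q v y else 0))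
    (fun t ht => by
      rw [interior_Icc] at ht
      have ht1 : t < 1 := lt_trans ht.2 hq
      rw [(hD t ht1).deriv]
      have h3 : (0 : ℝ) < 1 - q := by linarith
      have h4 : (1 - t)⁻¹ ≤ (1 - q)⁻¹ := inv_anti₀ h3 (by linarith [ht.2])
      have h5 : (0 : ℝ) ≤ (1 - t)⁻¹ := inv_nonneg.2 (by linarith)
      exact (mul_le_mul_of_nonneg_left (hS t (h0.trans ht.1.le) ht.2.le) h5).trans (mul_le_mul_of_nonneg_right h4 hSn))
    p ⟨le_rfl, hpq⟩ q ⟨hpq, le_rfl⟩ hpq
  rw [mul_comm (q - p)]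
  exact h2

end gen

open scoped Classical in
private lemma R3_deg {d l : ℕ} (z : Fin d → Fin l) :
    ∑ x : Fin d → Fin l, (if (boxG d l).Adj x z then (1 : ℝ) else 0) ≤ 2 * d := by
  have h1 : ∀ x : {x // (boxG d l).Adj x z}, ∃ q : Fin d × Bool,
      ((q.2 = true ∧ (x.1 q.1 : ℕ) + 1 = z q.1) ∨ (q.2 = false ∧ (z q.1 : ℕ) + 1 = x.1 q.1)) ∧
        ∀ j, j ≠ q.1 → x.1 j = z j := by
    rintro ⟨x, i, h | h, hj⟩
    · exact ⟨(i, true), Or.inl ⟨rfl, h⟩, hj⟩
    · exact ⟨(i, false), Or.inr ⟨rfl, h⟩, hj⟩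
  choose f hf using h1
  have hinj : Function.Injective f := by
    intro x y hxy
    have hx := hf x
    have hy := hf y
    rw [← hxy] at hy
    apply Subtype.ext
    funext j
    by_cases hj : j = (f x).1
    · subst hj
      apply Fin.ext
      rcases hx.1 with a | a
      · rcases hy.1 with b | b
        · have := a.2
          have := b.2
          omega
        · have hc := a.1
          rw [b.1] at hc
          exact absurd hc (by decide)
      · rcases hy.1 with b | b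
        · have hc := b.1
          rw [a.1] at hc
          exact absurd hc (by decide)
        · have := a.2
          have := b.2
          omega
    · rw [hx.2 j hj, hy.2 j hj]
  have h2 := Fintype.card_le_of_injective f hinj
  rw [Fintype.card_subtype, Fintype.card_prod, Fintype.card_fin, Fintype.card_bool] at h2
  rw [Finset.sum_boole]
  have h3 : (((Finset.univ.filter (fun x => (boxG d l).Adj x z)).card : ℕ) : ℝ) ≤ ((d * 2 : ℕ) : ℝ) := by
    exact_mod_cast h2
  rw [Nat.cast_mul, Nat.cast_ofNat] at h3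
  linarith

private lemma R3_nd {d l : ℕ} {u v : Fin d → Fin l} (h : (boxG d l).Adj u v) : nd u v ≤ 1 := by
  obtain ⟨i, hi, hj⟩ := h
  unfold nd
  refine Finset.sup_le fun k _ => ?_
  by_cases hk : k = i
  · subst hk
    omega
  · rw [hj k hk]
    omega

private lemma R3_fk {d l : ℕ} {u v : Fin d → Fin l} (h : (boxG d l).Adj u v) (y : Fin d → Fin l) :
    fk (d - 2) v y ≤ 2 ^ d * fk (d - 2) u y := by
  have h1 := R3_nd h
  have h2 := nd_tri u v y
  have h3 : (1 + (nd u y : ℝ)) ≤ 2 * (1 + (nd v y : ℝ)) := by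
    have : 1 + nd u y ≤ 2 * (1 + nd v y) := by omega
    exact_mod_cast this
  have hu : (0 : ℝ) < 1 + (nd u y : ℝ) := by positivity
  have hv : (0 : ℝ) < 1 + (nd v y : ℝ) := by positivity
  unfold fk
  have h4 : 1 / (1 + (nd v y : ℝ)) ^ (d - 2) ≤ 2 ^ (d - 2) * (1 / (1 + (nd u y : ℝ)) ^ (d - 2)) := by
    rw [mul_one_div, div_le_div_iff₀ (by positivity) (by positivity), one_mul, ← mul_pow]
    exact pow_le_pow_left₀ hu.le h3 _
  refine h4.trans (mul_le_mul_of_nonneg_right ?_ (by positivity))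
  exact pow_le_pow_right₀ (by norm_num) (Nat.sub_le _ _)

private lemma R3_fk0 {d l : ℕ} (k : ℕ) (x y : Fin d → Fin l) : 0 ≤ fk k x y := by
  unfold fk
  positivity

section box

variable {d l : ℕ}

open scoped Classical in
/-- Row R2. The sum over the edges: `ta ≤ C fk`, for neighbours `u`, `v`: `fk v y ≤ 2^d fk u y` (`1 + nd u y ≤ 2 (1 + nd v y)`), at most `2 d` neighbours `v` of `u` (see `C4_deg`, Q/Cv.lean), `conv_f` (V/Lt.lean). -/
lemma edge_sum (hd : 5 ≤ d) [Fintype (boxG d l).edgeSet] {p C : ℝ} (h0 : 0 ≤ p) (h1 : p ≤ 1) (hC : 0 ≤ C) (hU : ∀ x y, ta (gends (boxG d l)) p x y ≤ C * fk (d - 2) x y) (x y : Fin d → Fin l) :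
    ∑ u, ∑ v, (if ∃ e, gends (boxG d l) e = s(u, v) then ta (gends (boxG d l)) p x u * ta (gends (boxG d l)) p v y else 0) ≤
      2 * d * 2 ^ d * C ^ 2 * C4 d * fk (d - 4) x y := by
  have hterm : ∀ u v : Fin d → Fin l,
      (if ∃ e, gends (boxG d l) e = s(u, v) then ta (gends (boxG d l)) p x u * ta (gends (boxG d l)) p v y else 0) ≤
        (if (boxG d l).Adj v u then (1 : ℝ) else 0) * (C ^ 2 * 2 ^ d * (fk (d - 2) x u * fk (d - 2) u y)) := by
    intro u v
    have f1 := R3_fk0 (d - 2) x u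
    have f2 := R3_fk0 (d - 2) u y
    have f3 := R3_fk0 (d - 2) v y
    split_ifs with g1 h2 h2
    · have hadj : (boxG d l).Adj u v := h2.symm
      rw [one_mul]
      calc ta (gends (boxG d l)) p x u * ta (gends (boxG d l)) p v y
          ≤ (C * fk (d - 2) x u) * (C * fk (d - 2) v y) :=
            mul_le_mul (hU x u) (hU v y) (ta_nonneg h0 h1 v y) (mul_nonneg hC f1)
        _ ≤ (C * fk (d - 2) x u) * (C * (2 ^ d * fk (d - 2) u y)) :=
            mul_le_mul_of_nonneg_left (mul_le_mul_of_nonneg_left (R3_fk hadj y) hC) (mul_nonneg hC f1)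
        _ = C ^ 2 * 2 ^ d * (fk (d - 2) x u * fk (d - 2) u y) := by ring
    · obtain ⟨e, he⟩ := g1
      exact absurd (by
        have h3 : s(u, v) ∈ (boxG d l).edgeSet := by
          rw [← he]
          exact e.2
        exact ((SimpleGraph.mem_edgeSet _).1 h3).symm) h2
    · positivity
    · simp
  calc ∑ u, ∑ v, (if ∃ e, gends (boxG d l) e = s(u, v) then ta (gends (boxG d l)) p x u * ta (gends (boxG d l)) p v y else 0)
      ≤ ∑ u, ∑ v, (if (boxG d l).Adj v u then (1 : ℝ) else 0) * (C ^ 2 * 2 ^ d * (fk (d - 2) x u * fk (d - 2) u y)) :=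
        Finset.sum_le_sum fun u _ => Finset.sum_le_sum fun v _ => hterm u v
    _ = ∑ u, (∑ v, (if (boxG d l).Adj v u then (1 : ℝ) else 0)) * (C ^ 2 * 2 ^ d * (fk (d - 2) x u * fk (d - 2) u y)) := by
        refine Finset.sum_congr rfl fun u _ => ?_
        rw [Finset.sum_mul]
    _ ≤ ∑ u, (2 * d : ℝ) * (C ^ 2 * 2 ^ d * (fk (d - 2) x u * fk (d - 2) u y)) := by
        refine Finset.sum_le_sum fun u _ => mul_le_mul_of_nonneg_right (R3_deg u) ?_
        have f1 := R3_fk0 (d - 2) x u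
        have f2 := R3_fk0 (d - 2) u y
        positivity
    _ = 2 * d * 2 ^ d * C ^ 2 * ∑ u, fk (d - 2) x u * fk (d - 2) u y := by
        rw [Finset.mul_sum]
        refine Finset.sum_congr rfl fun u _ => ?_
        ring
    _ ≤ 2 * d * 2 ^ d * C ^ 2 * (C4 d * fk (d - 4) x y) :=
        mul_le_mul_of_nonneg_left (conv_f hd x y) (by positivity)
    _ = 2 * d * 2 ^ d * C ^ 2 * C4 d * fk (d - 4) x y := by ring

open scoped Classical in
/-- Row R3. `ta_diff` with `q = pc`, `p = pc - s`, `edge_sum`: `ta (pc-s) x y ≥ c0/l^(d-2) - s K (1+nd x y)^(4-d)`, and `(1+nd x y)^(4-d) ≤ 8^(d-4) l^(4-d)` as `l ≤ 8 (1 + nd x y)`; `s l² ≤ α` with `α K 8^(d-4) ≤ c0/2`. -/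
theorem low_box (d : ℕ) (hd : 5 ≤ d) (C c0 pc : ℝ) (hC : 0 ≤ C) (hc0 : 0 < c0) (h0 : 0 < pc) (h1 : pc < 1) :
    ∃ α : ℝ, 0 < α ∧ ∀ (l : ℕ) [Fintype (boxG d l).edgeSet] (s : ℝ), 0 ≤ s → s ≤ pc → s * (l : ℝ) ^ 2 ≤ α →
      (∀ x y, ta (gends (boxG d l)) pc x y ≤ C * fk (d - 2) x y) → (∀ x y, bul x → bul y → c0 / (l : ℝ) ^ (d - 2) ≤ ta (gends (boxG d l)) pc x y) →
      ∀ x y : Fin d → Fin l, bul x → bul y → l ≤ 8 * (1 + nd x y) → c0 / 2 / (l : ℝ) ^ (d - 2) ≤ ta (gends (boxG d l)) (pc - s) x y := by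
  have hq : 0 < (1 - pc)⁻¹ := inv_pos.2 (by linarith)
  have hC4 : 0 ≤ C4 d := by
    unfold C4
    positivity
  obtain ⟨K, hK⟩ : ∃ K : ℝ, K = (1 - pc)⁻¹ * (2 * d * 2 ^ d * C ^ 2 * C4 d) * 8 ^ (d - 4) := ⟨_, rfl⟩
  have hK0 : 0 ≤ K := by
    rw [hK]
    positivity
  refine ⟨c0 / 2 / (K + 1), by positivity, ?_⟩
  intro l _ s hs hs1 hsl hU hL x y hx hy hl
  have hl1 : 0 < l := (Nat.zero_le _).trans_lt (x ⟨0, by omega⟩).2
  have hlr : (0 : ℝ) < (l : ℝ) := by exact_mod_cast hl1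
  have h2 := ta_diff (ends := gends (boxG d l)) Subtype.val_injective (p := pc - s) (q := pc)
    (by linarith) (by linarith) h1 x y
  have h3 := edge_sum hd (p := pc) h0.le h1.le hC hU x y
  have h4 := hL x y hx hy
  have hfk : fk (d - 4) x y ≤ 8 ^ (d - 4) / (l : ℝ) ^ (d - 4) := by
    unfold fk
    have e1 : (l : ℝ) ≤ 8 * (1 + (nd x y : ℝ)) := by exact_mod_cast hl
    have e2 : (l : ℝ) ^ (d - 4) ≤ 8 ^ (d - 4) * (1 + (nd x y : ℝ)) ^ (d - 4) := by
      rw [← mul_pow]
      exact pow_le_pow_left₀ hlr.le e1 _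
    rw [div_le_div_iff₀ (by positivity) (by positivity), one_mul]
    exact e2
  have h5 : (1 - pc)⁻¹ * ∑ u, ∑ v, (if ∃ e, gends (boxG d l) e = s(u, v) then
      ta (gends (boxG d l)) pc x u * ta (gends (boxG d l)) pc v y else 0) ≤
      K / (l : ℝ) ^ (d - 4) := by
    calc (1 - pc)⁻¹ * ∑ u, ∑ v, (if ∃ e, gends (boxG d l) e = s(u, v) then
        ta (gends (boxG d l)) pc x u * ta (gends (boxG d l)) pc v y else 0)
        ≤ (1 - pc)⁻¹ * (2 * d * 2 ^ d * C ^ 2 * C4 d * (8 ^ (d - 4) / (l : ℝ) ^ (d - 4))) := by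
          refine mul_le_mul_of_nonneg_left (h3.trans ?_) hq.le
          exact mul_le_mul_of_nonneg_left hfk (by positivity)
      _ = K / (l : ℝ) ^ (d - 4) := by
          rw [hK]
          ring
  have h6 : (pc - (pc - s)) * ((1 - pc)⁻¹ * ∑ u, ∑ v, (if ∃ e, gends (boxG d l) e = s(u, v) then
      ta (gends (boxG d l)) pc x u * ta (gends (boxG d l)) pc v y else 0)) ≤
      s * (K / (l : ℝ) ^ (d - 4)) := by
    have e1 : pc - (pc - s) = s := by ring
    rw [e1]
    exact mul_le_mul_of_nonneg_left h5 hs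
  have h7 : s * (K / (l : ℝ) ^ (d - 4)) ≤ c0 / 2 / (l : ℝ) ^ (d - 2) := by
    have e1 : (l : ℝ) ^ (d - 2) = (l : ℝ) ^ (d - 4) * (l : ℝ) ^ 2 := by
      rw [← pow_add]
      congr 1
      omega
    have e2 : s * (K / (l : ℝ) ^ (d - 4)) = s * (l : ℝ) ^ 2 * K / (l : ℝ) ^ (d - 2) := by
      rw [e1]
      field_simp
    rw [e2]
    refine div_le_div_of_nonneg_right ?_ (by positivity)
    calc s * (l : ℝ) ^ 2 * K ≤ c0 / 2 / (K + 1) * K := mul_le_mul_of_nonneg_right hsl hK0
      _ ≤ c0 / 2 / (K + 1) * (K + 1) := mul_le_mul_of_nonneg_left (by linarith) (by positivity)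
      _ = c0 / 2 := by field_simp
  have h8 : c0 / (l : ℝ) ^ (d - 2) = c0 / 2 / (l : ℝ) ^ (d - 2) + c0 / 2 / (l : ℝ) ^ (d - 2) := by ring
  linarith [h2.trans h6]

end box

end Pool.Agent.PERC29.PP
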