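import Pool.Agent.Lib.MP_29e17e_pr.O.To
import Pool.Agent.Lib.MP_29e17e_pr.Q.Ex

namespace Pool.Agent.PERC29
end Pool.Agent.PERC29
namespace Pool.Agent.PERC29.AE
end Pool.Agent.PERC29.AE
namespace Pool.Agent.PERC29.DZ
end Pool.Agent.PERC29.DZ
namespace Pool.Agent.PERC29.OB
end Pool.Agent.PERC29.OB
namespace Pool.Agent.PERC29.QQ
end Pool.Agent.PERC29.QQ

set_option autoImplicit false
set_option linter.unusedSectionVars false

/-! Rows 29p-N1 .. N2: Harris' inequality for the two-point function, and points near each other on the torus. -/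

open Finset

namespace Pool.Agent.PERC29.PP

open Pool.Agent.PERC29 Pool.Agent.PERC29.AE Pool.Agent.PERC29.OB Pool.Agent.PERC29.QQ Pool.Agent.PERC29.DZ

section gen

variable {V : Type} [Fintype V] [DecidableEq V] {E : Type} [Fintype E] [DecidableEq E] {ends : E → Sym2 V}

/-- Row N1. `harris` (Q/Ex.lean) for `1 - 1[y ∈ cu x]` and `1 - 1[z ∈ cu y]`; if `y ∈ cu x` and `z ∈ cu y` then `z ∈ cu x`. -/
lemma ta_mul {p : ℝ} (h0 : 0 ≤ p) (h1 : p ≤ 1) (x y z : V) : ta ends p x y * ta ends p y z ≤ ta ends p x z := by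
  obtain ⟨a, ha⟩ : ∃ a : V → V → (E → Bool) → ℝ, ∀ u v ω, a u v ω = if v ∈ cu ends ω u then 1 else 0 :=
    ⟨fun u v ω => if v ∈ cu ends ω u then 1 else 0, fun _ _ _ => rfl⟩
  have hta : ∀ u v, ta ends p u v = Ex p (fun ω => a u v ω) := fun u v => Ex_congr fun ω => (ha u v ω).symm
  have ha0 : ∀ u v ω, 0 ≤ a u v ω := by
    intro u v ω
    rw [ha]
    split_ifs <;> norm_num
  have ha1 : ∀ u v ω, a u v ω ≤ 1 := by
    intro u v ω
    rw [ha]
    split_ifs <;> norm_num
  have hmono : ∀ (u v : V) (ω ω' : E → Bool), (∀ e, ω e = true → ω' e = true) → a u v ω ≤ a u v ω' := by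
    intro u v ω ω' h
    by_cases h2 : v ∈ cu ends ω u
    · have h3 : v ∈ cu ends ω' u := by
        rw [mem_cu] at h2 ⊢
        exact h2.mono h le_rfl
      rw [ha, ha, if_pos h2, if_pos h3]
    · rw [ha u v ω, if_neg h2]
      exact ha0 u v ω'
  have hsub : ∀ u v, Ex p (fun ω => 1 - a u v ω) = 1 - Ex p (fun ω => a u v ω) := by
    intro u v
    have e1 : ∀ ω : E → Bool, 1 - a u v ω = 1 + (-1) * a u v ω := fun ω => by ring
    rw [Ex_congr e1, Ex_add, Ex_const, Ex_mul_left]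
    ring
  have hk := harris h0 h1 (fun ω => 1 - a x y ω) (fun ω => 1 - a y z ω)
    (fun ω => sub_nonneg.2 (ha1 x y ω)) (fun ω => sub_le_self 1 (ha0 x y ω))
    (fun ω => sub_nonneg.2 (ha1 y z ω)) (fun ω => sub_le_self 1 (ha0 y z ω))
    (fun ω ω' h => sub_le_sub_left (hmono x y ω ω' h) 1) (fun ω ω' h => sub_le_sub_left (hmono y z ω ω' h) 1)
  rw [hsub, hsub] at hk
  have e3 : ∀ ω : E → Bool, (1 - a x y ω) * (1 - a y z ω) =
      1 + ((-1) * a x y ω + ((-1) * a y z ω + a x y ω * a y z ω)) := fun ω => by ring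
  rw [Ex_congr e3, Ex_add, Ex_const, Ex_add, Ex_mul_left, Ex_add, Ex_mul_left] at hk
  have h5 : Ex p (fun ω => a x y ω * a y z ω) ≤ Ex p (fun ω => a x z ω) := by
    refine Ex_mono h0 h1 fun ω => ?_
    by_cases h2 : y ∈ cu ends ω x
    · by_cases h3 : z ∈ cu ends ω y
      · have h4 : z ∈ cu ends ω x := by
          rw [← cu_eq h2]
          exact h3
        rw [ha x y, ha y z, ha x z, if_pos h2, if_pos h3, if_pos h4, one_mul]
      · rw [ha y z, if_neg h3, mul_zero]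
        exact ha0 x z ω
    · rw [ha x y, if_neg h2, zero_mul]
      exact ha0 x z ω
  rw [hta, hta, hta]
  refine le_trans ?_ h5
  have e4 : (1 - Ex p fun ω => a x y ω) * (1 - Ex p fun ω => a y z ω) =
      1 - (Ex p fun ω => a x y ω) - (Ex p fun ω => a y z ω) +
        (Ex p fun ω => a x y ω) * (Ex p fun ω => a y z ω) := by ring
  rw [e4] at hk
  linarith only [hk]

/-- Row N1. The edge is open with probability `p`. -/
lemma ta_edge {p : ℝ} (h0 : 0 ≤ p) (h1 : p ≤ 1) {x y : V} {e : E} (he : ends e = s(x, y)) : p ≤ ta ends p x y := by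
  have hc := Ex_coord p e (fun _ : E → Bool => (1 : ℝ)) (fun _ _ _ => rfl)
  rw [Ex_const, mul_one] at hc
  have hle : Ex p (fun ω : E → Bool => (if ω e = true then (1 : ℝ) else 0) * 1) ≤ ta ends p x y := by
    refine Ex_mono h0 h1 fun ω => ?_
    by_cases h2 : ω e = true
    · have h3 : y ∈ cu ends ω x := by
        rw [mem_cu]
        exact Relation.ReflTransGen.single ⟨trivial, trivial, e, h2, he⟩
      rw [if_pos h2, if_pos h3, one_mul]
    · rw [if_neg h2, zero_mul]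
      split_ifs <;> norm_num
  rw [hc] at hle
  exact hle

private lemma N2_symm (p : ℝ) (x y : V) : ta ends p x y = ta ends p y x := by
  unfold ta
  refine Ex_congr fun ω => ?_
  by_cases h : y ∈ cu ends ω x
  · rw [if_pos h, if_pos (cu_symm.1 h)]
  · rw [if_neg h, if_neg (fun h2 => h (cu_symm.1 h2))]

end gen

section tor

variable {d n : ℕ} [NeZero n] [Fintype (torG d n).edgeSet]

/-- Row N2. Induction on `j`: `tpi_edge` (O/To.lean), `ta_edge`, `ta_mul`. -/
lemma ta_path (i0 : Fin d) (hn : 2 ≤ n) {p : ℝ} (h0 : 0 ≤ p) (h1 : p ≤ 1) (x : Fin d → ZMod n) (j : ℕ) :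
    p ^ j ≤ ta (gends (torG d n)) p x (tpi i0 x j) := by
  induction j with
  | zero =>
    have e : tpi i0 x 0 = x := by
      unfold tpi
      simp
    rw [pow_zero, e]
    have h2 : ta (gends (torG d n)) p x x = 1 := ta_self p x
    rw [h2]
  | succ j ih =>
    obtain ⟨e, he⟩ := tpi_edge i0 hn x j
    calc p ^ (j + 1) = p ^ j * p := pow_succ _ _
      _ ≤ ta (gends (torG d n)) p x (tpi i0 x j) * ta (gends (torG d n)) p (tpi i0 x j) (tpi i0 x (j + 1)) :=
          mul_le_mul ih (ta_edge h0 h1 he) h0 (ta_nonneg h0 h1 _ _)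
      _ ≤ _ := ta_mul h0 h1 _ _ _

/-- Row N2. If `td x y < R`: with `w = tpi i0 y (2 R)`: `td y w = 2 R` (`tpi_dist`, `4 R ≤ n`), so `td x w ≥ R` (`td_tri`), and `ta x y ≥ ta x w * ta w y ≥ m * p^(2R)` (`ta_mul`, `ta_path`, `ta_symm`). If `td x y ≥ R`: `p^(2R) ≤ 1`. -/
theorem near_low (hd : 1 ≤ d) {R : ℕ} (hR : 4 * R ≤ n) (hn : 2 ≤ n) {p m : ℝ} (h0 : 0 ≤ p) (h1 : p ≤ 1) (hm : 0 ≤ m)
    (h : ∀ x y : Fin d → ZMod n, R ≤ td x y → m ≤ ta (gends (torG d n)) p x y) (x y : Fin d → ZMod n) :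
    m * p ^ (2 * R) ≤ ta (gends (torG d n)) p x y := by
  have hp1 : p ^ (2 * R) ≤ 1 := pow_le_one₀ h0 h1
  by_cases hxy : R ≤ td x y
  · exact (mul_le_of_le_one_right hm hp1).trans (h x y hxy)
  · push Not at hxy
    obtain ⟨w, hw⟩ : ∃ w, w = tpi ⟨0, hd⟩ y (2 * R) := ⟨_, rfl⟩
    have h2 : td y w = 2 * R := by
      rw [hw]
      exact tpi_dist _ _ (by omega) y
    have h3 : td y w ≤ td y x + td x w := td_tri y x w
    have h4 : td y x = td x y := td_symm y x
    have h5 : m ≤ ta (gends (torG d n)) p x w := h x w (by omega)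
    have h6 : p ^ (2 * R) ≤ ta (gends (torG d n)) p w y := by
      rw [N2_symm, hw]
      exact ta_path _ hn h0 h1 y (2 * R)
    calc m * p ^ (2 * R) ≤ ta (gends (torG d n)) p x w * ta (gends (torG d n)) p w y :=
          mul_le_mul h5 h6 (by positivity) (ta_nonneg h0 h1 _ _)
      _ ≤ _ := ta_mul h0 h1 _ _ _

end tor

end Pool.Agent.PERC29.PP
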