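import Pool.Agent.Lib.MP_29e17e_pr.P.Ct
import Pool.Agent.Lib.MP_29e17e_pr.P.Nr
import Pool.Agent.Lib.MP_29e17e_pr.P.Rs
import Pool.Agent.Lib.MP_29e17e_pr.Q.Dn

namespace Pool.Agent.PERC29
end Pool.Agent.PERC29
namespace Pool.Agent.PERC29.AE
end Pool.Agent.PERC29.AE
namespace Pool.Agent.PERC29.DZ
end Pool.Agent.PERC29.DZ
namespace Pool.Agent.PERC29.OB
end Pool.Agent.PERC29.OB
namespace Pool.Agent.PERC29.QQ
end Pool.Agent.PERC29.QQ

set_option autoImplicit false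
set_option linter.unusedSectionVars false

/-! Assembly: the torus plateau lower bound below `pc` from the bounds in boxes. -/

open Finset

namespace Pool.Agent.PERC29.PP

open Pool.Agent.PERC29 Pool.Agent.PERC29.AE Pool.Agent.PERC29.OB Pool.Agent.PERC29.QQ Pool.Agent.PERC29.DZ

/-- Translation invariance of the two-point function of the torus. -/
lemma ta_trans {d n : ℕ} [NeZero n] [Fintype (torG d n).edgeSet] (p : ℝ) (x w : Fin d → ZMod n) :
    ta (gends (torG d n)) p x w = ta (gends (torG d n)) p 0 (w - x) := by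
  have hG : ∀ a b : Fin d → ZMod n, (torG d n).Adj (a + x) (b + x) ↔ (torG d n).Adj a b := by
    intro a b
    have h1 : ∀ (u v : Fin d → ZMod n) (i : Fin d),
        (v + x = u + x + Pi.single i 1 ↔ v = u + Pi.single i 1) := by
      intro u v i
      rw [add_right_comm, add_left_inj]
    simp only [torG, ne_eq, add_left_inj, h1]
  have h := ta_map (torG d n) (⟨Equiv.addRight x, fun {a b} => hG a b⟩ : torG d n ≃g torG d n) p 0 (w - x)
  have h2 : (⟨Equiv.addRight x, fun {a b} => hG a b⟩ : torG d n ≃g torG d n) 0 = x := by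
    change (0 : Fin d → ZMod n) + x = x
    rw [zero_add]
  have h3 : (⟨Equiv.addRight x, fun {a b} => hG a b⟩ : torG d n ≃g torG d n) (w - x) = w := by
    change w - x + x = w
    rw [sub_add_cancel]
  rw [h2, h3] at h
  exact h

/-- The class of the centre. -/
lemma td_cla {d n N : ℕ} [NeZero n] (w : Fin d → ZMod n) :
    td (cla n (ctr d N)) (fun i => w i + (N : ZMod n)) = td (0 : Fin d → ZMod n) w := by
  unfold td
  refine Finset.sup_congr rfl fun i _ => ?_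
  have h6 : cla n (ctr d N) i - (w i + (N : ZMod n)) = (0 : Fin d → ZMod n) i - w i := by
    simp only [cla, ctr, Pi.zero_apply]
    ring
  rw [h6]

lemma pr_cla {d n N : ℕ} {w : Fin d → ZMod n} {y : Fin d → Fin (2 * N + 1)} (h : cla n y = (fun i => w i + (N : ZMod n))) :
    pr d n N y = w := by
  funext i
  have h1 := congrFun h i
  simp only [cla] at h1
  simp only [pr]
  rw [h1]
  ring

open scoped Classical in
/-- One point: the comparison with the box. -/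
theorem core_one (d : ℕ) (hd : 9 ≤ d) (C : ℝ) (hC : 0 ≤ C) : ∃ K : ℝ, 0 ≤ K ∧ ∀ (n N : ℕ) [NeZero n] [Fintype (torG d n).edgeSet] [Fintype (boxG d (2 * N + 1)).edgeSet]
    (p a M : ℝ), 3 ≤ n → n ^ d ≤ N → 0 ≤ p → p ≤ 1 → 0 < a → a ≤ 1 → (∀ x y, ta (gends (boxG d (2 * N + 1))) p x y ≤ C * ek (d - 2) a x y) →
    ∀ (w : Fin d → ZMod n) (Y : Finset (Fin d → Fin (2 * N + 1))), (∀ y ∈ Y, cla n y = (fun i => w i + (N : ZMod n))) →
    M ≤ ∑ y ∈ Y, ta (gends (boxG d (2 * N + 1))) p (ctr d N) y →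
    M ≤ ta (gends (torG d n)) p 0 w +
      K * Bn d n a * (1 / Real.sqrt ((td (0 : Fin d → ZMod n) w : ℝ) + 1) + Bn d n a * (n : ℝ) ^ 4 + 1 / a ^ 2 * (Bn d n a * (n : ℝ) ^ 2 + (n : ℝ) ^ d * Bn d n a ^ 2)) +
      K * Bn d n a * (1 / Real.sqrt ((td (0 : Fin d → ZMod n) w : ℝ) + 1) + Bn d n a * (n : ℝ) ^ 2 + 1 / a ^ 2 * Bn d n a) := by
  obtain ⟨K1, hK1, hW⟩ := WL_err d hd C hC
  obtain ⟨K2, hK2, hP⟩ := pair_err d hd C hC
  refine ⟨max K1 K2, le_max_of_le_left hK1, ?_⟩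
  intro n N _ _ _ p a M hn hN h0 h1 ha ha1 hE w Y hY hM
  have hB0 : 0 ≤ Bn d n a := by unfold Bn; positivity
  have b1 := bonf (ends := gends (boxG d (2 * N + 1))) h0 h1 (ctr d N) Y
  have b2 := hP n (2 * N + 1) p a h0 h1 ha ha1 hE (fun i => w i + (N : ZMod n)) Y hY (ctr d N)
  rw [td_cla] at b2
  have hcov := cov_box (d := d) (n := n) (N := N) hn hN
  have hnn : ∀ z y, 0 ≤ ta (gends (boxG d (2 * N + 1))) p z y := fun z y => ta_nonneg h0 h1 z y
  have b3 := cmp_hit (p := p) (Λ := fun z => ∑ y ∈ Y, ta (gends (boxG d (2 * N + 1))) p z y) (Y := Y) (w := w) hcov h0 h1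
    (fun v => Finset.sum_nonneg fun y _ => hnn v y) (fun v => hit_sum h0 h1 v Y) (fun y hy => pr_cla (hY y hy))
  rw [pr_ctr] at b3
  have hΛ : ∀ z, (fun z => ∑ y ∈ Y, ta (gends (boxG d (2 * N + 1))) p z y) z ≤
      C * (tk (d - 2) (cla n z) (fun i => w i + (N : ZMod n)) + Bn d n a) := by
    intro z
    have c1 := class_sum (l := 2 * N + 1) (by omega : 2 ≤ d) (n := n) ha ha1 (fun i => w i + (N : ZMod n)) z
    have c2 : ∑ y ∈ Y, ta (gends (boxG d (2 * N + 1))) p z y ≤ C * ∑ y ∈ Finset.univ.filter (fun y : Fin d → Fin (2 * N + 1) => ∀ i, ((y i : ℕ) : ZMod n) = w i + (N : ZMod n)), ek (d - 2) a z y := by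
      rw [Finset.mul_sum]
      refine (Finset.sum_le_sum fun y _ => hE z y).trans ?_
      refine Finset.sum_le_sum_of_subset_of_nonneg ?_ fun y _ _ => mul_nonneg hC (ek_nonneg _ _ _ _)
      intro y hy
      rw [Finset.mem_filter]
      exact ⟨Finset.mem_univ _, fun i => congrFun (hY y hy) i⟩
    exact c2.trans (mul_le_mul_of_nonneg_left c1 hC)
  have b4 := hW n N p a h0 h1 ha ha1 hE (fun i => w i + (N : ZMod n)) (fun z => ∑ y ∈ Y, ta (gends (boxG d (2 * N + 1))) p z y)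
    (fun z => Finset.sum_nonneg fun y _ => hnn z y) hΛ (ctr d N)
  rw [td_cla] at b4
  have hX1 : 0 ≤ 1 / Real.sqrt ((td (0 : Fin d → ZMod n) w : ℝ) + 1) + Bn d n a * (n : ℝ) ^ 4 + 1 / a ^ 2 * (Bn d n a * (n : ℝ) ^ 2 + (n : ℝ) ^ d * Bn d n a ^ 2) := by
    positivity
  have hX2 : 0 ≤ 1 / Real.sqrt ((td (0 : Fin d → ZMod n) w : ℝ) + 1) + Bn d n a * (n : ℝ) ^ 2 + 1 / a ^ 2 * Bn d n a := by
    positivity
  have c1 : K1 * Bn d n a * (1 / Real.sqrt ((td (0 : Fin d → ZMod n) w : ℝ) + 1) + Bn d n a * (n : ℝ) ^ 4 + 1 / a ^ 2 * (Bn d n a * (n : ℝ) ^ 2 + (n : ℝ) ^ d * Bn d n a ^ 2)) ≤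
      max K1 K2 * Bn d n a * (1 / Real.sqrt ((td (0 : Fin d → ZMod n) w : ℝ) + 1) + Bn d n a * (n : ℝ) ^ 4 + 1 / a ^ 2 * (Bn d n a * (n : ℝ) ^ 2 + (n : ℝ) ^ d * Bn d n a ^ 2)) :=
    mul_le_mul_of_nonneg_right (mul_le_mul_of_nonneg_right (le_max_left _ _) hB0) hX1
  have c2 : K2 * Bn d n a * (1 / Real.sqrt ((td (0 : Fin d → ZMod n) w : ℝ) + 1) + Bn d n a * (n : ℝ) ^ 2 + 1 / a ^ 2 * Bn d n a) ≤
      max K1 K2 * Bn d n a * (1 / Real.sqrt ((td (0 : Fin d → ZMod n) w : ℝ) + 1) + Bn d n a * (n : ℝ) ^ 2 + 1 / a ^ 2 * Bn d n a) :=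
    mul_le_mul_of_nonneg_right (mul_le_mul_of_nonneg_right (le_max_right _ _) hB0) hX2
  linarith

/-- The numbers of the assembly. -/
lemma num_as {b K c0 s V n2 a2 T : ℝ} (hb : 0 ≤ b) (hK : 0 ≤ K) (hc0 : 0 < c0) (hs : 0 < s) (hs1 : s ≤ 1) (hV : 0 < V) (hn2 : 0 ≤ n2) (hsn : s * n2 ≤ 1)
    (ha2 : a2 = c0 ^ 2 * s) (hT : 0 ≤ T) :
    K * (b / (s * V)) * (T + b / (s * V) * n2 ^ 2 + 1 / a2 * (b / (s * V) * n2 + V * (b / (s * V)) ^ 2)) +
      K * (b / (s * V)) * (T + b / (s * V) * n2 + 1 / a2 * (b / (s * V))) ≤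
      K * b * (2 * T + (2 * b + 2 * b / c0 ^ 2 + b ^ 2 / c0 ^ 2) / (s ^ 3 * V)) / (s * V) := by
  have hsV : 0 < s * V := by positivity
  have hs3 : 0 < s ^ 3 * V := by positivity
  have e1 : b / (s * V) * n2 ^ 2 ≤ b / (s ^ 3 * V) := by
    rw [div_mul_eq_mul_div, div_le_div_iff₀ hsV hs3]
    have : (s * n2) ^ 2 ≤ 1 := pow_le_one₀ (by positivity) hsn
    have h2 : b * n2 ^ 2 * (s ^ 3 * V) = b * (s * V) * (s * n2) ^ 2 := by ring
    rw [h2]
    exact mul_le_of_le_one_right (by positivity) this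
  have e2 : 1 / a2 * (b / (s * V) * n2) ≤ b / c0 ^ 2 / (s ^ 3 * V) := by
    rw [ha2]
    have h2 : 1 / (c0 ^ 2 * s) * (b / (s * V) * n2) = b / c0 ^ 2 / (s ^ 3 * V) * (s * n2) := by
      field_simp
    rw [h2]
    exact mul_le_of_le_one_right (by positivity) hsn
  have e3 : 1 / a2 * (V * (b / (s * V)) ^ 2) = b ^ 2 / c0 ^ 2 / (s ^ 3 * V) := by
    rw [ha2]
    field_simp
  have e4 : b / (s * V) * n2 ≤ b / (s ^ 3 * V) := by
    have h2 : b / (s * V) * n2 = b / (s ^ 3 * V) * (s * (s * n2)) := by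
      field_simp
    rw [h2]
    apply mul_le_of_le_one_right (by positivity)
    nlinarith [mul_nonneg hs.le hn2]
  have e5 : 1 / a2 * (b / (s * V)) ≤ b / c0 ^ 2 / (s ^ 3 * V) := by
    rw [ha2]
    have h2 : 1 / (c0 ^ 2 * s) * (b / (s * V)) = b / c0 ^ 2 / (s ^ 3 * V) * s := by
      field_simp
    rw [h2]
    exact mul_le_of_le_one_right (by positivity) hs1
  have hKb : 0 ≤ K * (b / (s * V)) := by positivity
  have e6 : 1 / a2 * (b / (s * V) * n2 + V * (b / (s * V)) ^ 2) ≤ b / c0 ^ 2 / (s ^ 3 * V) + b ^ 2 / c0 ^ 2 / (s ^ 3 * V) := by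
    rw [mul_add, e3]
    linarith
  have e7 : K * (b / (s * V)) * (T + b / (s * V) * n2 ^ 2 + 1 / a2 * (b / (s * V) * n2 + V * (b / (s * V)) ^ 2)) ≤
      K * (b / (s * V)) * (T + b / (s ^ 3 * V) + (b / c0 ^ 2 / (s ^ 3 * V) + b ^ 2 / c0 ^ 2 / (s ^ 3 * V))) :=
    mul_le_mul_of_nonneg_left (by linarith) hKb
  have e8 : K * (b / (s * V)) * (T + b / (s * V) * n2 + 1 / a2 * (b / (s * V))) ≤
      K * (b / (s * V)) * (T + b / (s ^ 3 * V) + b / c0 ^ 2 / (s ^ 3 * V)) :=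
    mul_le_mul_of_nonneg_left (by linarith) hKb
  refine (add_le_add e7 e8).trans (le_of_eq ?_)
  field_simp
  ring

lemma td_trans {d n : ℕ} [NeZero n] (x y : Fin d → ZMod n) : td (0 : Fin d → ZMod n) (y - x) = td x y := by
  unfold td
  refine Finset.sup_congr rfl fun i _ => ?_
  have h6 : (0 : Fin d → ZMod n) i - (y - x) i = x i - y i := by
    simp only [Pi.zero_apply, Pi.sub_apply]
    ring
  rw [h6]

open scoped Classical in
/-- The torus plateau lower bound below `pc`. -/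
theorem LTs_of (d : ℕ) (hd : 9 ≤ d) (C c0 pc : ℝ) (hC : 0 ≤ C) (hc0 : 0 < c0) (h0 : 0 < pc) (h1 : pc < 1)
    (hE : EB d C c0 c0 pc) (hU : ∀ (l : ℕ) (x y : Fin d → Fin l), ta (gends (boxG d l)) pc x y ≤ C * fk (d - 2) x y)
    (hL : ∀ (l : ℕ) (x y : Fin d → Fin l), bul x → bul y → c0 / (l : ℝ) ^ (d - 2) ≤ ta (gends (boxG d l)) pc x y) :
    ∃ cL AL : ℝ, 0 < cL ∧ 0 < AL ∧ LTs d cL AL pc := by
  classical
  obtain ⟨K, hK, hcore⟩ := core_one d hd C hC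
  obtain ⟨α, hα, hlow⟩ := low_box d (by omega) C c0 pc hC hc0 h0 h1
  obtain ⟨β, hβd⟩ : ∃ β, β = min (Real.sqrt α / 8) (1 / 4) := ⟨_, rfl⟩
  have hsα : 0 < Real.sqrt α := Real.sqrt_pos.2 hα
  have hβ : 0 < β := by rw [hβd]; exact lt_min (by positivity) (by norm_num)
  have hβ8 : 8 * β ≤ Real.sqrt α := by
    have : β ≤ Real.sqrt α / 8 := by rw [hβd]; exact min_le_left _ _
    linarith
  have hβα : 64 * β ^ 2 ≤ α := by
    have h2 := mul_self_le_mul_self (by positivity : 0 ≤ 8 * β) hβ8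
    rw [Real.mul_self_sqrt hα.le] at h2
    have h3 : 8 * β * (8 * β) = 64 * β ^ 2 := by ring
    rw [← h3]
    exact h2
  have hβ4 : β ≤ 1 / 4 := by rw [hβd]; exact min_le_right _ _
  obtain ⟨b, hbd⟩ : ∃ b : ℝ, b = 8 ^ (d + 1) / c0 ^ 2 := ⟨_, rfl⟩
  have hb : 0 < b := by rw [hbd]; positivity
  obtain ⟨M0, hM0d⟩ : ∃ M0 : ℝ, M0 = c0 / 2 / (2 ^ d * 8 ^ (d - 2)) * (β ^ 2 / 4) := ⟨_, rfl⟩
  have hM0 : 0 < M0 := by rw [hM0d]; positivity
  obtain ⟨R, hR⟩ : ∃ R : ℕ, (8 * K * b / M0) ^ 2 ≤ (R : ℝ) := exists_nat_ge _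
  obtain ⟨Q, hQd⟩ : ∃ Q : ℝ, Q = 2 * b + 2 * b / c0 ^ 2 + b ^ 2 / c0 ^ 2 := ⟨_, rfl⟩
  have hQ : 0 < Q := by rw [hQd]; positivity
  obtain ⟨AL, hALd⟩ : ∃ AL : ℝ, AL = max (max 1 (4 * (K * b * Q) / M0)) (max (2 ^ d + 1) ((4 * (R : ℝ)) ^ d)) := ⟨_, rfl⟩
  have hAL1 : 1 ≤ AL := by rw [hALd]; exact (le_max_left _ _).trans (le_max_left _ _)
  have hAL2 : 4 * (K * b * Q) / M0 ≤ AL := by rw [hALd]; exact (le_max_right _ _).trans (le_max_left _ _)
  have hAL3 : 2 ^ d + 1 ≤ AL := by rw [hALd]; exact (le_max_left _ _).trans (le_max_right _ _)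
  have hAL4 : (4 * (R : ℝ)) ^ d ≤ AL := by rw [hALd]; exact (le_max_right _ _).trans (le_max_right _ _)
  obtain ⟨cL, hcLd⟩ : ∃ cL : ℝ, cL = min (min (min 1 c0) (min (pc / 2) (1 / c0 ^ 2))) (min (β ^ 2 / 4) (M0 / 2 * (pc / 2) ^ (2 * R))) := ⟨_, rfl⟩
  have hcL : 0 < cL := by
    rw [hcLd]
    refine lt_min (lt_min (lt_min one_pos hc0) (lt_min (by positivity) (by positivity))) (lt_min (by positivity) (by positivity))
  have hcL1 : cL ≤ 1 := by rw [hcLd]; exact (min_le_left _ _).trans ((min_le_left _ _).trans (min_le_left _ _))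
  have hcL2 : cL ≤ c0 := by rw [hcLd]; exact (min_le_left _ _).trans ((min_le_left _ _).trans (min_le_right _ _))
  have hcL3 : cL ≤ pc / 2 := by rw [hcLd]; exact (min_le_left _ _).trans ((min_le_right _ _).trans (min_le_left _ _))
  have hcL4 : cL ≤ 1 / c0 ^ 2 := by rw [hcLd]; exact (min_le_left _ _).trans ((min_le_right _ _).trans (min_le_right _ _))
  have hcL5 : cL ≤ β ^ 2 / 4 := by rw [hcLd]; exact (min_le_right _ _).trans (min_le_left _ _)
  have hcL6 : cL ≤ M0 / 2 * (pc / 2) ^ (2 * R) := by rw [hcLd]; exact (min_le_right _ _).trans (min_le_right _ _)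
  refine ⟨cL, AL, hcL, by linarith, ?_⟩
  intro n _ _ s hs hAs hsn
  have hn0 : 1 ≤ n := Nat.one_le_iff_ne_zero.2 (NeZero.ne n)
  have hn0r : (1 : ℝ) ≤ n := by exact_mod_cast hn0
  have hn2 : (1 : ℝ) ≤ (n : ℝ) ^ 2 := one_le_pow₀ hn0r
  have hscL : s ≤ cL := (le_mul_of_one_le_right hs.le hn2).trans hsn
  have hs1 : s ≤ 1 := hscL.trans hcL1
  have hsc0 : s ≤ c0 := hscL.trans hcL2
  have hspc : s ≤ pc / 2 := hscL.trans hcL3
  have hV : 0 < (n : ℝ) ^ d := by positivity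
  have hs3 : s ^ 3 ≤ 1 := pow_le_one₀ hs.le hs1
  have hAn : AL ≤ (n : ℝ) ^ d := hAs.trans (mul_le_of_le_one_left hV.le hs3)
  have hn3 : 3 ≤ n := by
    by_contra hcon
    push Not at hcon
    have h2 : (n : ℝ) ^ d ≤ 2 ^ d := by
      apply pow_le_pow_left₀ (by positivity)
      have : n ≤ 2 := by omega
      exact_mod_cast this
    linarith
  have hR4 : 4 * R ≤ n := by
    by_contra hcon
    push Not at hcon
    have h2 : (n : ℝ) ^ d < (4 * (R : ℝ)) ^ d := by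
      apply pow_lt_pow_left₀ _ (by positivity) (by omega)
      exact_mod_cast hcon
    linarith
  have hss : 0 < Real.sqrt s := Real.sqrt_pos.2 hs
  have hss2 : Real.sqrt s * Real.sqrt s = s := Real.mul_self_sqrt hs.le
  have hss1 : Real.sqrt s ≤ 1 := Real.sqrt_le_iff.2 ⟨zero_le_one, by rw [one_pow]; exact hs1⟩
  have hsss : s ≤ Real.sqrt s := by
    calc s = Real.sqrt s * Real.sqrt s := hss2.symm
      _ ≤ Real.sqrt s := mul_le_of_le_one_right hss.le hss1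
  obtain ⟨m, hmd⟩ : ∃ m, m = ⌊β / Real.sqrt s⌋₊ := ⟨_, rfl⟩
  have hm1 : (m : ℝ) ≤ β / Real.sqrt s := by rw [hmd]; exact Nat.floor_le (by positivity)
  have hm2 : β / Real.sqrt s < (m : ℝ) + 1 := by rw [hmd]; exact Nat.lt_floor_add_one _
  have hm1' : (m : ℝ) * Real.sqrt s ≤ β := (le_div_iff₀ hss).1 hm1
  have hnm : n ≤ m := by
    rw [hmd]
    apply Nat.le_floor
    rw [le_div_iff₀ hss]
    have h2 : ((n : ℝ) * Real.sqrt s) ^ 2 ≤ β ^ 2 := by
      have h3 : ((n : ℝ) * Real.sqrt s) ^ 2 = s * (n : ℝ) ^ 2 := by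
        rw [mul_pow, sq (Real.sqrt s), hss2]; ring
      rw [h3]
      linarith [sq_nonneg β]
    exact le_of_sq_le_sq h2 hβ.le
  have hm4 : 4 * m ≤ n ^ d := by
    have h2 : (4 * m : ℝ) ≤ (n : ℝ) ^ d := by
      have h3 : (4 * m : ℝ) * Real.sqrt s ≤ 1 := by
        have h9 : (4 * m : ℝ) * Real.sqrt s = 4 * ((m : ℝ) * Real.sqrt s) := by ring
        rw [h9]
        linarith
      have h4 : 1 ≤ s ^ 3 * (n : ℝ) ^ d := hAL1.trans hAs
      have h5 : s ^ 3 ≤ Real.sqrt s := by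
        have h6 : s ^ 3 ≤ s := pow_le_of_le_one hs.le hs1 (by norm_num)
        exact h6.trans hsss
      have h7 : 1 ≤ Real.sqrt s * (n : ℝ) ^ d := h4.trans (mul_le_mul_of_nonneg_right h5 hV.le)
      have h8 : (4 * m : ℝ) * Real.sqrt s ≤ (n : ℝ) ^ d * Real.sqrt s := by linarith
      exact le_of_mul_le_mul_right h8 hss
    exact_mod_cast h2
  have hsm : s * (((8 * m : ℕ) : ℝ)) ^ 2 ≤ α := by
    push_cast
    have h2 : s * (8 * (m : ℝ)) ^ 2 = 64 * ((m : ℝ) * Real.sqrt s) ^ 2 := by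
      rw [mul_pow, mul_pow, sq (Real.sqrt s), hss2]; ring
    rw [h2]
    have h3 : ((m : ℝ) * Real.sqrt s) ^ 2 ≤ β ^ 2 := pow_le_pow_left₀ (by positivity) hm1' 2
    linarith
  have hmm : β ^ 2 / (4 * s) ≤ (m : ℝ) ^ 2 := by
    have h2 : 2 ≤ β / Real.sqrt s := by
      rw [le_div_iff₀ hss]
      have h3 : (2 * Real.sqrt s) ^ 2 ≤ β ^ 2 := by
        rw [mul_pow, sq (Real.sqrt s), hss2]
        have := hscL.trans hcL5
        linarith
      exact le_of_sq_le_sq h3 hβ.le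
    have h3 : β / Real.sqrt s / 2 ≤ m := by linarith
    have h4 : (β / Real.sqrt s / 2) ^ 2 = β ^ 2 / (4 * s) := by
      rw [div_pow, div_pow, sq (Real.sqrt s), hss2, div_div]
      ring
    rw [← h4]
    exact pow_le_pow_left₀ (by positivity) h3 2
  have hp0 : 0 ≤ pc - s := by linarith
  have hp1 : pc - s ≤ 1 := by linarith
  have ha : 0 < c0 * Real.sqrt s := by positivity
  have ha2 : (c0 * Real.sqrt s) ^ 2 = c0 ^ 2 * s := by rw [mul_pow, sq (Real.sqrt s), hss2]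
  have ha1 : c0 * Real.sqrt s ≤ 1 := by
    have h2 : (c0 * Real.sqrt s) ^ 2 ≤ 1 ^ 2 := by
      rw [ha2, one_pow]
      have h3 := hscL.trans hcL4
      rw [le_div_iff₀ (by positivity)] at h3
      linarith
    exact le_of_sq_le_sq h2 zero_le_one
  have hBn : Bn d n (c0 * Real.sqrt s) = b / (s * (n : ℝ) ^ d) := by
    unfold Bn
    rw [ha2, hbd, div_div]
    congr 1
    ring
  have hfar : ∀ w : Fin d → ZMod n, R ≤ td (0 : Fin d → ZMod n) w → M0 / 2 / (s * (n : ℝ) ^ d) ≤ ta (gends (torG d n)) (pc - s) 0 w := by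
    intro w hw
    obtain ⟨Y, hY, hYs⟩ := class_low (d := d) (n := n) (N := n ^ d) (m := m) (by omega) hn0 hnm hm4 hp0 hp1 (by positivity : 0 ≤ c0 / 2)
      (hlow (8 * m) s hs.le (by linarith) hsm (hU (8 * m)) (hL (8 * m))) (fun i => w i + ((n ^ d : ℕ) : ZMod n))
    have hMle : M0 / (s * (n : ℝ) ^ d) ≤ ∑ y ∈ Y, ta (gends (boxG d (2 * n ^ d + 1))) (pc - s) (ctr d (n ^ d)) y := by
      refine le_trans ?_ hYs
      have e : M0 / (s * (n : ℝ) ^ d) = c0 / 2 / (2 ^ d * 8 ^ (d - 2)) * (β ^ 2 / (4 * s) / (n : ℝ) ^ d) := by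
        rw [hM0d]
        field_simp
      rw [e]
      apply mul_le_mul_of_nonneg_left _ (by positivity)
      exact div_le_div_of_nonneg_right hmm hV.le
    have key := hcore n (n ^ d) (pc - s) (c0 * Real.sqrt s) (M0 / (s * (n : ℝ) ^ d)) hn3 le_rfl hp0 hp1 ha ha1 (hE (2 * n ^ d + 1) s hs hsc0) w Y hY hMle
    rw [hBn] at key
    have hT : 0 ≤ 1 / Real.sqrt ((td (0 : Fin d → ZMod n) w : ℝ) + 1) := by positivity
    have hn4 : (n : ℝ) ^ 4 = ((n : ℝ) ^ 2) ^ 2 := by ring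
    rw [hn4] at key
    have hnum := num_as (b := b) (K := K) (c0 := c0) (s := s) (V := (n : ℝ) ^ d) (n2 := (n : ℝ) ^ 2) (a2 := (c0 * Real.sqrt s) ^ 2)
      (T := 1 / Real.sqrt ((td (0 : Fin d → ZMod n) w : ℝ) + 1)) hb.le hK hc0 hs hs1 hV (by positivity) (by linarith) ha2 hT
    rw [← hQd] at hnum
    have t1 : K * b * (2 * (1 / Real.sqrt ((td (0 : Fin d → ZMod n) w : ℝ) + 1))) ≤ M0 / 4 := by
      have h2 : 8 * K * b / M0 ≤ Real.sqrt ((td (0 : Fin d → ZMod n) w : ℝ) + 1) := by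
        apply Real.le_sqrt_of_sq_le
        have : (R : ℝ) ≤ (td (0 : Fin d → ZMod n) w : ℝ) := by exact_mod_cast hw
        linarith
      have h3 : 0 < Real.sqrt ((td (0 : Fin d → ZMod n) w : ℝ) + 1) := by positivity
      rw [div_le_iff₀ hM0] at h2
      have h4 : K * b * (2 * (1 / Real.sqrt ((td (0 : Fin d → ZMod n) w : ℝ) + 1))) = 2 * K * b / Real.sqrt ((td (0 : Fin d → ZMod n) w : ℝ) + 1) := by ring
      rw [h4, div_le_iff₀ h3]
      have h5 : 2 * K * b = 8 * K * b / 4 := by ring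
      have h6 : M0 / 4 * Real.sqrt ((td (0 : Fin d → ZMod n) w : ℝ) + 1) = Real.sqrt ((td (0 : Fin d → ZMod n) w : ℝ) + 1) * M0 / 4 := by ring
      rw [h5, h6]
      exact div_le_div_of_nonneg_right h2 (by norm_num)
    have t2 : K * b * (Q / (s ^ 3 * (n : ℝ) ^ d)) ≤ M0 / 4 := by
      have h2 : 4 * (K * b * Q) / M0 ≤ s ^ 3 * (n : ℝ) ^ d := hAL2.trans hAs
      rw [div_le_iff₀ hM0] at h2
      have h3 : 0 < s ^ 3 * (n : ℝ) ^ d := by positivity
      have h4 : K * b * (Q / (s ^ 3 * (n : ℝ) ^ d)) = K * b * Q / (s ^ 3 * (n : ℝ) ^ d) := by ring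
      rw [h4, div_le_iff₀ h3]
      have h5 : K * b * Q = 4 * (K * b * Q) / 4 := by ring
      have h6 : M0 / 4 * (s ^ 3 * (n : ℝ) ^ d) = s ^ 3 * (n : ℝ) ^ d * M0 / 4 := by ring
      rw [h5, h6]
      exact div_le_div_of_nonneg_right h2 (by norm_num)
    have t3 : K * b * (2 * (1 / Real.sqrt ((td (0 : Fin d → ZMod n) w : ℝ) + 1)) + Q / (s ^ 3 * (n : ℝ) ^ d)) / (s * (n : ℝ) ^ d) ≤ M0 / 2 / (s * (n : ℝ) ^ d) := by
      apply div_le_div_of_nonneg_right _ (by positivity)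
      rw [mul_add]
      linarith
    have t4 : M0 / (s * (n : ℝ) ^ d) = M0 / 2 / (s * (n : ℝ) ^ d) + M0 / 2 / (s * (n : ℝ) ^ d) := by ring
    linarith
  intro x y
  have hall := near_low (d := d) (n := n) (by omega) (R := R) hR4 (by omega) (p := pc - s) (m := M0 / 2 / (s * (n : ℝ) ^ d)) hp0 hp1 (by positivity)
    (fun x y hxy => by
      rw [ta_trans]
      exact hfar (y - x) (by rw [td_trans]; exact hxy)) x y
  refine le_trans ?_ hall
  have hpp : (pc / 2) ^ (2 * R) ≤ (pc - s) ^ (2 * R) := pow_le_pow_left₀ (by positivity) (by linarith) _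
  have e1 : cL * (1 / s) / (n : ℝ) ^ d = cL / (s * (n : ℝ) ^ d) := by rw [mul_one_div, div_div]
  rw [e1]
  calc cL / (s * (n : ℝ) ^ d) ≤ (M0 / 2 * (pc / 2) ^ (2 * R)) / (s * (n : ℝ) ^ d) := div_le_div_of_nonneg_right hcL6 (by positivity)
    _ = M0 / 2 / (s * (n : ℝ) ^ d) * (pc / 2) ^ (2 * R) := by ring
    _ ≤ M0 / 2 / (s * (n : ℝ) ^ d) * (pc - s) ^ (2 * R) := mul_le_mul_of_nonneg_left hpp (by positivity)

end Pool.Agent.PERC29.PP
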