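import Pool.Agent.Lib.MP_29e17e_pr.P.As
import Pool.Agent.Lib.MP_29e17e_pr.Q.Fn

set_option autoImplicit false
set_option linter.unusedSectionVars false

/-! The final theorem, without any hypothesis on the torus. -/

open Finset Filter Topology

namespace Pool.Agent.PERC29.PP

open Pool.Agent.PERC29 Pool.Agent.PERC29.AE Pool.Agent.PERC29.OB Pool.Agent.PERC29.QQ Pool.Agent.PERC29.DZ

/-- The final theorem: the giant component of the torus above the critical window. -/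
theorem finalW (d : ℕ) (C c₀ pc : ℝ) (hd : 11 ≤ d) (hc₀ : 0 < c₀) (h0 : 0 < pc) (h1 : pc < 1)
    (hU : ∀ (l : ℕ) (x y : Fin d → Fin l) (s : ℝ), 0 ≤ s → s ≤ c₀ →
      tau (boxG d l) (pc - s) x y ≤
        C / (1 + (nd x y : ℝ)) ^ (d - 2) * Real.exp (-(c₀ * Real.sqrt s * (nd x y : ℝ))))
    (hL : ∀ (l : ℕ) (x y : Fin d → Fin l), bul x → bul y → c₀ / (l : ℝ) ^ (d - 2) ≤ tau (boxG d l) pc x y)
    (hB : ∀ N : ℕ, 1 ≤ N → armProb d N pc ≤ C / (N : ℝ) ^ 2) :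
    IsGreatest {p : ℝ | 0 ≤ p ∧ p ≤ 1 ∧ theta d p = 0} pc ∧
    ∃ c : ℝ, 0 < c ∧ HasDerivWithinAt (fun e : ℝ => theta d (pc * (1 + e))) c (Set.Ici 0) 0 ∧
      ∀ lam : ℝ, 0 < lam → ∀ pT : ℕ → ℝ,
        (∀ᶠ n : ℕ in atTop, 0 ≤ pT n ∧ pT n ≤ 1 ∧
          chi (torG d (n + 3)) (pT n) 0 = lam * (((n : ℝ) + 3) ^ d) ^ ((1 : ℝ) / 3)) →
        ∀ ε : ℕ → ℝ, Tendsto ε atTop (𝓝 0) →
          Tendsto (fun n : ℕ => ε n * (((n : ℝ) + 3) ^ d) ^ ((1 : ℝ) / 3)) atTop atTop → ∀ δ : ℝ, 0 < δ →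
          Tendsto (fun n : ℕ => prob (torG d (n + 3)) (pT n * (1 + ε n)) (fun ω =>
            δ * ε n * ((n : ℝ) + 3) ^ d <
              |(maxCluster (torG d (n + 3)) ω : ℝ) - c * ε n * ((n : ℝ) + 3) ^ d|)) atTop (𝓝 0) ∧
          Tendsto (fun n : ℕ => prob (torG d (n + 3)) (pT n * (1 + ε n)) (fun ω => ∃ x y,
            ¬ (openGraph (torG d (n + 3)) ω).Reachable x y ∧
            δ * ε n * ((n : ℝ) + 3) ^ d < (clusterSize (torG d (n + 3)) ω x : ℝ) ∧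
            δ * ε n * ((n : ℝ) + 3) ^ d < (clusterSize (torG d (n + 3)) ω y : ℝ))) atTop (𝓝 0) := by
  classical
  obtain ⟨C1, hC1d⟩ : ∃ C1, C1 = max C 1 := ⟨_, rfl⟩
  have hC11 : 1 ≤ C1 := by rw [hC1d]; exact le_max_right _ _
  have hCC1 : C ≤ C1 := by rw [hC1d]; exact le_max_left _ _
  have hE : EB d C1 c₀ c₀ pc := by
    intro l s hs hsc x y
    have h := hU l x y s hs.le hsc
    rw [tau_eq] at h
    refine h.trans ?_
    unfold ek fk
    rw [← mul_assoc, mul_one_div]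
    apply mul_le_mul_of_nonneg_right _ (Real.exp_pos _).le
    exact div_le_div_of_nonneg_right hCC1 (by positivity)
  have hU0 : ∀ (l : ℕ) (x y : Fin d → Fin l), ta (gends (boxG d l)) pc x y ≤ C1 * fk (d - 2) x y := by
    intro l x y
    have h := hU l x y 0 le_rfl hc₀.le
    rw [Real.sqrt_zero, mul_zero, zero_mul, neg_zero, Real.exp_zero, mul_one, sub_zero, tau_eq] at h
    refine h.trans ?_
    unfold fk
    rw [mul_one_div]
    exact div_le_div_of_nonneg_right hCC1 (by positivity)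
  have hL0 : ∀ (l : ℕ) (x y : Fin d → Fin l), bul x → bul y → c₀ / (l : ℝ) ^ (d - 2) ≤ ta (gends (boxG d l)) pc x y := by
    intro l x y hx hy
    have h := hL l x y hx hy
    rw [tau_eq] at h
    exact h
  obtain ⟨cL, AL, hcL, hAL, hP⟩ := LTs_of d (by omega) C1 c₀ pc (by linarith) hc₀ h0 h1 hE hU0 hL0
  exact finalG d C c₀ pc cL AL hd hc₀ h0 h1 hU hL hB hcL hAL hP

end Pool.Agent.PERC29.PP
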