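import Pool.Agent.Lib.MP_29e17e_pr.Q.Ex
import Pool.Agent.Lib.MP_29e17e_pr.Tree

namespace Pool.Agent.PERC29
end Pool.Agent.PERC29
namespace Pool.Agent.PERC29.AE
end Pool.Agent.PERC29.AE
namespace Pool.Agent.PERC29.OB
end Pool.Agent.PERC29.OB
namespace Pool.Agent.PERC29.QQ
end Pool.Agent.PERC29.QQ

set_option autoImplicit false
set_option linter.unusedSectionVars false

/-! Rows 29p-H1 .. H4: lower comparison of the two-point functions of the torus and of the box (exploration of Q/Ex.lean). -/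

open Finset

namespace Pool.Agent.PERC29.PP

open Pool.Agent.PERC29 Pool.Agent.PERC29.AE Pool.Agent.PERC29.OB Pool.Agent.PERC29.QQ

variable {V : Type} [Fintype V] [DecidableEq V] {E : Type} [Fintype E] [DecidableEq E]
  {V' : Type} [Fintype V'] [DecidableEq V'] {E' : Type} [Fintype E'] [DecidableEq E']
  {ends : E → Sym2 V} {ends' : E' → Sym2 V'} {π : V' → V} {ρ : E' → E} {ht : V' → ℕ} {o : V'}

/-- The sum of `Λ z` over the wraps `(x, z, y)` of `S` through edges of `R'`. -/
noncomputable def WL (ends' : E' → Sym2 V') (π : V' → V) (Λ : V' → ℝ) (S : Finset V') (R' : Finset E') : ℝ :=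
  ∑ t ∈ Wr ends' π S R', Λ t.2.1

open scoped Classical in
/-- The probability that the clusters of the points of `S`, with the edges of `R'` closed, meet `Y`. -/
noncomputable def hitP (ends' : E' → Sym2 V') (p : ℝ) (Y S : Finset V') (R' : Finset E') : ℝ :=
  Ex p (fun ω => if Disjoint (cuS ends' (cls R' ω) S) Y then (0 : ℝ) else 1)

/-- Row H1. More points, more edges: more wraps (`Wr` is monotone, `Λ ≥ 0`; `Finset.sum_le_sum_of_subset_of_nonneg`). -/
lemma WL_mono {Λ : V' → ℝ} (hΛ0 : ∀ v, 0 ≤ Λ v) {S S2 : Finset V'} {R R2 : Finset E'} (hS : S ⊆ S2) (hR : R ⊆ R2) :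
    WL ends' π Λ S R ≤ WL ends' π Λ S2 R2 := by
  classical
  unfold WL
  apply Finset.sum_le_sum_of_subset_of_nonneg
  · intro t ht
    unfold Wr at ht ⊢
    rw [Finset.mem_filter] at ht ⊢
    obtain ⟨h0, h1, h2, h3, h4, e', h5, h6⟩ := ht
    exact ⟨h0, hS h1, hS h2, h3, h4, e', hR h5, h6⟩
  · intro t _ _
    exact hΛ0 _

private lemma H1_cu (R' : Finset E') (ω : E' → Bool) (z : V') : cu ends' (cls R' ω) z ⊆ cu ends' ω z := by
  have h := cuS_mono (ends' := ends') (ω := cls R' ω) (ω' := ω) (subset_refl ({z} : Finset V')) (fun e he => by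
    unfold cls at he
    split_ifs at he
    exact he)
  unfold cuS at h
  rw [Finset.singleton_biUnion, Finset.singleton_biUnion] at h
  exact h

open scoped Classical in
/-- Row H1. `cuS (cls R' ω) (insert z S) = cu (cls R' ω) z ∪ cuS (cls R' ω) S` (`Finset.biUnion_insert`), and `cu (cls R' ω) z ⊆ cu ω z` (compare `bb_insert`, Q/Ex.lean; `cuS_mono` for `{z}`); union bound, `Ex_mono`, `Ex_add`. -/
lemma hit_insert {p : ℝ} {Λ : V' → ℝ} {Y : Finset V'} (h0 : 0 ≤ p) (h1 : p ≤ 1)
    (hΛ : ∀ v, Ex p (fun ω => if Disjoint (cu ends' ω v) Y then (0 : ℝ) else 1) ≤ Λ v) (S : Finset V') (R' : Finset E') (z : V') :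
    hitP ends' p Y (insert z S) R' ≤ hitP ends' p Y S R' + Λ z := by
  unfold hitP
  refine le_trans ?_ (add_le_add_right (hΛ z) _)
  rw [← Ex_add]
  apply Ex_mono h0 h1
  intro ω
  have e1 : cuS ends' (cls R' ω) (insert z S) = cu ends' (cls R' ω) z ∪ cuS ends' (cls R' ω) S := by
    unfold cuS
    rw [Finset.biUnion_insert]
  by_cases hd1 : Disjoint (cuS ends' (cls R' ω) S) Y
  · by_cases hd2 : Disjoint (cu ends' ω z) Y
    · have hd3 : Disjoint (cuS ends' (cls R' ω) (insert z S)) Y := by
        rw [e1, Finset.disjoint_union_left]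
        exact ⟨Finset.disjoint_of_subset_left (H1_cu R' ω z) hd2, hd1⟩
      rw [if_pos hd1, if_pos hd2, if_pos hd3]
      norm_num
    · rw [if_pos hd1, if_neg hd2]
      split_ifs <;> norm_num
  · rw [if_neg hd1]
    split_ifs <;> norm_num

open scoped Classical in
/-- Row H2. `cuS (cls R' ω) S ⊆ S ∪ cuS (cls R' ω) (Zo S R')` (this is in the proof of `bb_term`, Q/Ex.lean), and `hitP Y T R' ≤ ∑ z ∈ T, Λ z` for every `T`, by induction on `T` (`hit_insert`; `hitP Y ∅ R' = 0`). -/
lemma hit_term {p : ℝ} {Λ : V' → ℝ} {Y : Finset V'} (h0 : 0 ≤ p) (h1 : p ≤ 1) (hΛ0 : ∀ v, 0 ≤ Λ v)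
    (hΛ : ∀ v, Ex p (fun ω => if Disjoint (cu ends' ω v) Y then (0 : ℝ) else 1) ≤ Λ v) (S : Finset V') (R' : Finset E') :
    hitP ends' p Y S R' ≤ (if Disjoint S Y then (0 : ℝ) else 1) + ∑ z ∈ Zo ends' S R', Λ z := by
  have hT : ∀ T : Finset V', hitP ends' p Y T R' ≤ ∑ z ∈ T, Λ z := by
    intro T
    induction T using Finset.induction_on with
    | empty =>
      have e : hitP ends' p Y (∅ : Finset V') R' = 0 := by
        unfold hitP cuS
        rw [Ex_congr (g := fun _ => (0 : ℝ)) (fun ω => by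
          rw [Finset.biUnion_empty, if_pos (Finset.disjoint_empty_left Y)]), Ex_const]
      rw [e, Finset.sum_empty]
    | insert z T hz ih =>
      rw [Finset.sum_insert hz]
      have h2 := hit_insert h0 h1 hΛ T R' z
      linarith
  have hcls : ∀ (ω : E' → Bool) (e : E'), cls R' ω e = true → e ∉ R' := by
    intro ω e h he
    unfold cls at h
    rw [if_pos he] at h
    exact absurd h (by simp)
  have hsub : ∀ ω : E' → Bool, cuS ends' (cls R' ω) S ⊆
      S ∪ cuS ends' (cls R' ω) (Zo ends' S R') := by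
    intro ω v hv
    unfold cuS at hv
    rw [Finset.mem_biUnion] at hv
    obtain ⟨x, hx, hv⟩ := hv
    rw [mem_cu] at hv
    induction hv with
    | refl => exact Finset.mem_union_left _ hx
    | @tail c d _ hcd ih =>
      obtain ⟨-, -, e, h3, h4⟩ := hcd
      rcases Finset.mem_union.1 ih with hc | hc
      · by_cases hd : d ∈ S
        · exact Finset.mem_union_left _ hd
        · refine Finset.mem_union_right _ (sub_cuS _ _ ?_)
          unfold Zo
          rw [Finset.mem_filter]
          exact ⟨Finset.mem_univ _, hd, c, hc, e, hcls ω e h3, h4⟩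
      · refine Finset.mem_union_right _ ?_
        unfold cuS at hc ⊢
        rw [Finset.mem_biUnion] at hc ⊢
        obtain ⟨y, hy, hc⟩ := hc
        refine ⟨y, hy, ?_⟩
        rw [mem_cu] at hc ⊢
        exact Relation.ReflTransGen.tail hc ⟨trivial, trivial, e, h3, h4⟩
  have hpt : ∀ ω : E' → Bool, (if Disjoint (cuS ends' (cls R' ω) S) Y then (0 : ℝ) else 1) ≤
      (if Disjoint S Y then (0 : ℝ) else 1) +
        (if Disjoint (cuS ends' (cls R' ω) (Zo ends' S R')) Y then (0 : ℝ) else 1) := by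
    intro ω
    by_cases a1 : Disjoint S Y
    · by_cases a2 : Disjoint (cuS ends' (cls R' ω) (Zo ends' S R')) Y
      · have a3 : Disjoint (cuS ends' (cls R' ω) S) Y :=
          Finset.disjoint_of_subset_left (hsub ω) (Finset.disjoint_union_left.2 ⟨a1, a2⟩)
        rw [if_pos a1, if_pos a2, if_pos a3, add_zero]
      · rw [if_pos a1, if_neg a2, zero_add]
        split_ifs <;> norm_num
    · rw [if_neg a1]
      split_ifs <;> norm_num
  calc hitP ends' p Y S R' ≤ Ex p (fun ω => (if Disjoint S Y then (0 : ℝ) else 1) +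
        (if Disjoint (cuS ends' (cls R' ω) (Zo ends' S R')) Y then (0 : ℝ) else 1)) :=
        Ex_mono h0 h1 hpt
    _ = (if Disjoint S Y then (0 : ℝ) else 1) + hitP ends' p Y (Zo ends' S R') R' := by
        rw [Ex_add, Ex_const]
        rfl
    _ ≤ _ := by
        have h2 := hT (Zo ends' S R')
        linarith

/-- Row H2. `Wr_end` (Q/Ex.lean) with weights: for every `z ∈ Zo S R'` there are `x`, `y` with `(x, z, y) ∈ Wr S univ \ Wr S R'` (the proof of `Wr_end`); these triples are different for different `z`; `WL Λ S univ = WL Λ S R' + ∑ over the difference` (`Finset.sum_sdiff`). -/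
lemma Zo_WL (hc : Cov ends ends' π ρ ht o) {Λ : V' → ℝ} (hΛ0 : ∀ v, 0 ≤ Λ v) {S : Finset V'} {R : Finset E} {R' : Finset E'} (hinj : Set.InjOn π S)
    (h2 : ∀ e ∈ R, ∃ e1 ∈ R', ρ e1 = e ∧ ∃ x1 ∈ S, ∃ z1, ends' e1 = s(x1, z1)) (h3 : ¬ ∃ t, Av ends' ρ S R t) :
    ∑ z ∈ Zo ends' S R', Λ z + WL ends' π Λ S R' ≤ WL ends' π Λ S Finset.univ := by
  classical
  have hsub : Wr ends' π S R' ⊆ Wr ends' π S Finset.univ := by
    intro t ht
    simp only [Wr, Finset.mem_filter, Finset.mem_univ, true_and] at ht ⊢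
    obtain ⟨a1, a2, a3, a4, e', he', hee⟩ := ht
    exact ⟨a1, a2, a3, a4, e', hee⟩
  have key : ∀ z ∈ Zo ends' S R', ∃ xy : V' × V', (xy.1, z, xy.2) ∈ Wr ends' π S Finset.univ \ Wr ends' π S R' := by
    intro z hz
    simp only [Zo, Finset.mem_filter, Finset.mem_univ, true_and] at hz
    obtain ⟨hzS, x, hx, e', heR, hee⟩ := hz
    have hρ : ρ e' ∈ R := by
      by_contra hn
      exact h3 ⟨(e', x, z), hx, hee, hn⟩
    obtain ⟨e1, he1, hρe, x1, hx1, z1, hee1⟩ := h2 _ hρ
    have q1 : ends (ρ e') = s(π x, π z) := by rw [hc.proj, hee, Sym2.map_mk]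
    have q2 : ends (ρ e') = s(π x1, π z1) := by rw [← hρe, hc.proj, hee1, Sym2.map_mk]
    rw [q1, Sym2.eq_iff] at q2
    rcases q2 with ⟨u1, u2⟩ | ⟨u1, u2⟩
    · have hxx : x = x1 := hinj hx hx1 u1
      rw [← hxx] at hee1
      have hee' : e' = e1 := hc.star x z z1 e' e1 hee hee1 hρe.symm
      rw [← hee'] at he1
      exact absurd he1 heR
    · refine ⟨(x, x1), ?_⟩
      simp only [Wr, Finset.mem_sdiff, Finset.mem_filter, Finset.mem_univ, true_and]
      refine ⟨⟨hx, hx1, u2.symm, ?_, e', hee⟩, ?_⟩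
      · intro h
        rw [h] at hx1
        exact hzS hx1
      · rintro ⟨-, -, -, -, e2, he2, hee2⟩
        have : e2 = e' := hc.inj (by rw [hee2, hee])
        rw [this] at he2
        exact heR he2
  choose! f hf using key
  have hinjf : Set.InjOn (fun z => ((f z).1, z, (f z).2)) (Zo ends' S R' : Set V') := by
    intro z _ z' _ h
    simp only [Prod.mk.injEq] at h
    exact h.2.1
  have hle : ∑ z ∈ Zo ends' S R', Λ z ≤
      ∑ t ∈ Wr ends' π S Finset.univ \ Wr ends' π S R', Λ t.2.1 := by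
    have e1 : ∑ t ∈ (Zo ends' S R').image (fun z => ((f z).1, z, (f z).2)), Λ t.2.1 =
        ∑ z ∈ Zo ends' S R', Λ z := Finset.sum_image hinjf
    rw [← e1]
    refine Finset.sum_le_sum_of_subset_of_nonneg ?_ fun t _ _ => hΛ0 _
    intro t ht
    obtain ⟨z, hz, rfl⟩ := Finset.mem_image.1 ht
    exact hf z hz
  have hsum : ∑ t ∈ Wr ends' π S Finset.univ \ Wr ends' π S R', Λ t.2.1 +
      ∑ t ∈ Wr ends' π S R', Λ t.2.1 = ∑ t ∈ Wr ends' π S Finset.univ, Λ t.2.1 :=
    Finset.sum_sdiff hsub
  unfold WL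
  linarith

private lemma H3_Wr_mono {S S2 : Finset V'} {R R2 : Finset E'} (hS : S ⊆ S2) (hR : R ⊆ R2) :
    Wr ends' π S R ⊆ Wr ends' π S2 R2 := by
  intro t ht
  simp only [Wr, mem_filter, mem_univ, true_and] at ht ⊢
  obtain ⟨a, b, c, d, e', he', hh⟩ := ht
  exact ⟨hS a, hS b, c, d, e', hR he', hh⟩

open scoped Classical in
private lemma H3_term {p : ℝ} {Λ : V' → ℝ} {Y : Finset V'} {w : V} (hc : Cov ends ends' π ρ ht o) (h0 : 0 ≤ p) (h1 : p ≤ 1) (hΛ0 : ∀ v, 0 ≤ Λ v)
    (hΛ : ∀ v, Ex p (fun ω => if Disjoint (cu ends' ω v) Y then (0 : ℝ) else 1) ≤ Λ v) (hY : ∀ y ∈ Y, π y = w)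
    (S : Finset V') (R : Finset E) (R' : Finset E') (r : ℝ) (hinj : Set.InjOn π S)
    (h2 : ∀ e ∈ R, ∃ e1 ∈ R', ρ e1 = e ∧ ∃ x1 ∈ S, ∃ z1, ends' e1 = s(x1, z1)) (hr : r ≤ WL ends' π Λ S R') (h3 : ¬ ∃ t, Av ends' ρ S R t) :
    hitP ends' p Y S R' + r ≤ (if w ∈ S.image π then (1 : ℝ) else 0) + WL ends' π Λ S Finset.univ := by
  have a1 := Zo_WL hc hΛ0 hinj h2 h3
  have a2 := hit_term h0 h1 hΛ0 hΛ S R'
  have a3 : (if Disjoint S Y then (0 : ℝ) else 1) ≤ (if w ∈ S.image π then (1 : ℝ) else 0) := by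
    by_cases hd : Disjoint S Y
    · rw [if_pos hd]
      split_ifs
      · exact zero_le_one
      · exact le_refl _
    · have hw : w ∈ S.image π := by
        rw [Finset.not_disjoint_iff] at hd
        obtain ⟨y, hyS, hyY⟩ := hd
        exact Finset.mem_image.mpr ⟨y, hyS, hY y hyY⟩
      rw [if_neg hd, if_pos hw]
  linarith

open scoped Classical in
/-- Row H3. Induction on `k` for all `S`, `R`, `R'`, `r`, exactly as `A9_main` (Q/Ex.lean), with `f S = (if w ∈ S.image π then 1 else 0) + WL Λ S univ` in place of `(1-h)^|S| (1-M)^|Wr S univ|`, `hitP Y S R' + r` in place of `bb S R' (1-M)^r`, and `r ≤ WL Λ S R'`.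
Nothing available (always if `k = 0`): `hit_term`, `Zo_WL`; if `S` meets `Y` then `w ∈ S.image π`. Otherwise (`expl_Ex`, `cuS_Ex` with `g T = if Disjoint T Y then 0 else 1`, `t = (e', x, z)`): closed: induction with `insert (ρ e') R`, `insert e' R'`; open and `π z ∉ S.image π`:
induction with `insert z S`; open and `π z = π y`, `y ∈ S`: if `y = z` then `insert z S = S`; if `y ≠ z` then `hitP Y (insert z S) (insert e' R') ≤ hitP Y S (insert e' R') + Λ z` (`hit_insert`) and the induction hypothesis for `r + Λ z`: the triple `(x, z, y)` is in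
`Wr S (insert e' R')` and not in `Wr S R'` (`Cov.inj`), so `r + Λ z ≤ WL Λ S (insert e' R')`. -/
lemma hit_main {p : ℝ} {Λ : V' → ℝ} {Y : Finset V'} {w : V} (hc : Cov ends ends' π ρ ht o) (h0 : 0 ≤ p) (h1 : p ≤ 1) (hΛ0 : ∀ v, 0 ≤ Λ v)
    (hΛ : ∀ v, Ex p (fun ω => if Disjoint (cu ends' ω v) Y then (0 : ℝ) else 1) ≤ Λ v) (hY : ∀ y ∈ Y, π y = w) (k : ℕ) :
    ∀ (S : Finset V') (R : Finset E) (R' : Finset E') (r : ℝ), (Finset.univ \ R).card ≤ k → Set.InjOn π S → (∀ e' ∈ R', ρ e' ∈ R) →
      (∀ e ∈ R, ∃ e1 ∈ R', ρ e1 = e ∧ ∃ x1 ∈ S, ∃ z1, ends' e1 = s(x1, z1)) → r ≤ WL ends' π Λ S R' →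
      hitP ends' p Y S R' + r ≤
        Ex p (fun ω => (if w ∈ (expl ends' π ρ ω k S R).image π then (1 : ℝ) else 0) + WL ends' π Λ (expl ends' π ρ ω k S R) Finset.univ) := by
  induction k with
  | zero =>
    intro S R R' r hk hinj hR h2 hr
    have h3 : ¬ ∃ t, Av ends' ρ S R t := by
      rintro ⟨t, -, -, ht⟩
      have h4 : (Finset.univ \ R) = ∅ := Finset.card_eq_zero.mp (Nat.le_zero.mp hk)
      have h5 : ρ t.1 ∈ (Finset.univ \ R) := Finset.mem_sdiff.mpr ⟨mem_univ _, ht⟩
      rw [h4] at h5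
      exact absurd h5 (Finset.notMem_empty _)
    have h6 := H3_term hc h0 h1 hΛ0 hΛ hY S R R' r hinj h2 hr h3
    have h7 : (fun ω => (if w ∈ (expl ends' π ρ ω 0 S R).image π then (1 : ℝ) else 0) + WL ends' π Λ (expl ends' π ρ ω 0 S R) Finset.univ) =
        fun _ => (if w ∈ S.image π then (1 : ℝ) else 0) + WL ends' π Λ S Finset.univ := by
      funext ω
      have h8 : expl ends' π ρ ω 0 S R = S := by rw [expl]
      rw [h8]
    rw [h7, Ex_const]
    exact h6
  | succ k ih =>
    intro S R R' r hk hinj hR h2 hr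
    by_cases h3 : ∃ t, Av ends' ρ S R t
    · obtain ⟨⟨e', x, z⟩, ht, hstep⟩ := expl_Ex (π := π) p (fun T => (if w ∈ T.image π then (1 : ℝ) else 0) + WL ends' π Λ T Finset.univ) h3
      have hx : x ∈ S := ht.1
      have he : ends' e' = s(x, z) := ht.2.1
      have hρ : ρ e' ∉ R := ht.2.2
      have hR' : e' ∉ R' := fun hh => hρ (hR e' hh)
      have hcard : (Finset.univ \ insert (ρ e') R).card ≤ k := by
        have h7 : (Finset.univ \ insert (ρ e') R) = (Finset.univ \ R).erase (ρ e') := by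
          ext a
          simp only [mem_sdiff, mem_univ, true_and, mem_insert, mem_erase, not_or]
        rw [h7, Finset.card_erase_of_mem (Finset.mem_sdiff.mpr ⟨mem_univ _, hρ⟩)]
        omega
      have hR2 : ∀ e'' ∈ insert e' R', ρ e'' ∈ insert (ρ e') R := by
        intro e'' h8
        rcases Finset.mem_insert.mp h8 with h9 | h9
        · rw [h9]; exact Finset.mem_insert_self _ _
        · exact Finset.mem_insert_of_mem (hR e'' h9)
      have h22 : ∀ e ∈ insert (ρ e') R, ∃ e1 ∈ insert e' R', ρ e1 = e ∧ ∃ x1 ∈ S, ∃ z1, ends' e1 = s(x1, z1) := by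
        intro e h8
        rcases Finset.mem_insert.mp h8 with h9 | h9
        · exact ⟨e', Finset.mem_insert_self _ _, h9.symm, x, hx, z, he⟩
        · obtain ⟨e1, h10, h11, x1, h12, z1, h13⟩ := h2 e h9
          exact ⟨e1, Finset.mem_insert_of_mem h10, h11, x1, h12, z1, h13⟩
      have hW1 : r ≤ WL ends' π Λ S (insert e' R') :=
        hr.trans (WL_mono hΛ0 (Finset.Subset.refl _) (Finset.subset_insert _ _))
      have hclosed := ih S (insert (ρ e') R) (insert e' R') r hcard hinj hR2 h22 hW1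
      have hopen : hitP ends' p Y (insert z S) (insert e' R') + r ≤
          Ex p (fun ω => (if w ∈ (expl ends' π ρ ω k (if π z ∉ S.image π then insert z S else S) (insert (ρ e') R)).image π then (1 : ℝ) else 0) +
          WL ends' π Λ (expl ends' π ρ ω k (if π z ∉ S.image π then insert z S else S) (insert (ρ e') R)) Finset.univ) := by
        by_cases hz : π z ∉ S.image π
        · simp only [if_pos hz]
          refine ih (insert z S) (insert (ρ e') R) (insert e' R') r hcard ?_ hR2 ?_ ?_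
          · rw [Finset.coe_insert]
            have hzS : z ∉ (S : Set V') := fun hh => hz (Finset.mem_image_of_mem π (Finset.mem_coe.mp hh))
            rw [Set.injOn_insert hzS]
            refine ⟨hinj, ?_⟩
            rintro ⟨y, hy, hyz⟩
            exact hz (hyz ▸ Finset.mem_image_of_mem π (Finset.mem_coe.mp hy))
          · intro e h8
            obtain ⟨e1, h10, h11, x1, h12, z1, h13⟩ := h22 e h8
            exact ⟨e1, h10, h11, x1, Finset.mem_insert_of_mem h12, z1, h13⟩
          · exact hr.trans (WL_mono hΛ0 (Finset.subset_insert _ _) (Finset.subset_insert _ _))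
        · simp only [if_neg hz]
          have hz' : π z ∈ S.image π := not_not.mp hz
          obtain ⟨y, hy, hyz⟩ := Finset.mem_image.mp hz'
          by_cases hyz' : y = z
          · have hins : insert z S = S := Finset.insert_eq_of_mem (hyz' ▸ hy)
            rw [hins]
            exact hclosed
          · have hW2 : r + Λ z ≤ WL ends' π Λ S (insert e' R') := by
              have h14 : (x, z, y) ∉ Wr ends' π S R' := by
                intro hh
                simp only [Wr, mem_filter, mem_univ, true_and] at hh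
                obtain ⟨-, -, -, -, e2, he2, hh2⟩ := hh
                have h15 : e2 = e' := hc.inj (hh2.trans he.symm)
                exact hR' (h15 ▸ he2)
              have h16 : insert (x, z, y) (Wr ends' π S R') ⊆ Wr ends' π S (insert e' R') := by
                intro t htt
                rcases Finset.mem_insert.mp htt with h17 | h17
                · rw [h17]
                  simp only [Wr, mem_filter, mem_univ, true_and]
                  exact ⟨hx, hy, hyz, hyz', e', Finset.mem_insert_self _ _, he⟩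
                · exact H3_Wr_mono (Finset.Subset.refl _) (Finset.subset_insert _ _) h17
              have h18 : ∑ t ∈ insert (x, z, y) (Wr ends' π S R'), Λ t.2.1 ≤ ∑ t ∈ Wr ends' π S (insert e' R'), Λ t.2.1 :=
                Finset.sum_le_sum_of_subset_of_nonneg h16 (fun t _ _ => hΛ0 _)
              rw [Finset.sum_insert h14] at h18
              have h18' : Λ z + ∑ t ∈ Wr ends' π S R', Λ t.2.1 ≤ ∑ t ∈ Wr ends' π S (insert e' R'), Λ t.2.1 := h18
              unfold WL at hr ⊢
              linarith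
            have h19 := ih S (insert (ρ e') R) (insert e' R') (r + Λ z) hcard hinj hR2 h22 hW2
            refine le_trans ?_ h19
            have h20 := hit_insert h0 h1 hΛ S (insert e' R') z
            linarith
      have hbb : hitP ends' p Y S R' = p * hitP ends' p Y (insert z S) (insert e' R') + (1 - p) * hitP ends' p Y S (insert e' R') :=
        cuS_Ex p (fun T => if Disjoint T Y then (0 : ℝ) else 1) hx he hR'
      have hstep' := hstep k
      simp only at hstep'
      rw [hstep', hbb]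
      have hp1 : 0 ≤ 1 - p := by linarith
      have m1 := mul_le_mul_of_nonneg_left hopen h0
      have m2 := mul_le_mul_of_nonneg_left hclosed hp1
      have m3 : p * hitP ends' p Y (insert z S) (insert e' R') + (1 - p) * hitP ends' p Y S (insert e' R') + r =
          p * (hitP ends' p Y (insert z S) (insert e' R') + r) + (1 - p) * (hitP ends' p Y S (insert e' R') + r) := by ring
      rw [m3]
      exact add_le_add m1 m2
    · have h6 := H3_term hc h0 h1 hΛ0 hΛ hY S R R' r hinj h2 hr h3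
      have h7 : (fun ω => (if w ∈ (expl ends' π ρ ω (k + 1) S R).image π then (1 : ℝ) else 0) + WL ends' π Λ (expl ends' π ρ ω (k + 1) S R) Finset.univ) =
          fun _ => (if w ∈ S.image π then (1 : ℝ) else 0) + WL ends' π Λ S Finset.univ := by
        funext ω
        rw [expl_none ω k h3]
      rw [h7, Ex_const]
      exact h6

open scoped Classical in
/-- Row H4. `hit_main` with `S = {o}`, `R = ∅`, `R' = ∅`, `r = 0` (`WL Λ {o} ∅ = 0`), `Sf_cl`: `(Sf ω).image π = cu ω (π o)`; `cmp_up` (Q/Ex.lean) with `G S = WL Λ S univ` (`WL_mono`). -/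
theorem cmp_hit {p : ℝ} {Λ : V' → ℝ} {Y : Finset V'} {w : V} (hc : Cov ends ends' π ρ ht o) (h0 : 0 ≤ p) (h1 : p ≤ 1) (hΛ0 : ∀ v, 0 ≤ Λ v)
    (hΛ : ∀ v, Ex p (fun ω => if Disjoint (cu ends' ω v) Y then (0 : ℝ) else 1) ≤ Λ v) (hY : ∀ y ∈ Y, π y = w) :
    Ex p (fun ω => if Disjoint (cu ends' ω o) Y then (0 : ℝ) else 1) ≤
      ta ends p (π o) w + Ex p (fun ω => WL ends' π Λ (cu ends' ω o) Finset.univ) := by
  have hW : WL ends' π Λ {o} (∅ : Finset E') = 0 := by
    unfold WL
    have hE : Wr ends' π {o} (∅ : Finset E') = ∅ := by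
      ext t
      simp [Wr]
    rw [hE, Finset.sum_empty]
  have h3 := hit_main hc h0 h1 hΛ0 hΛ hY (Fintype.card E) {o} ∅ ∅ 0 (by rw [Finset.sdiff_empty, Finset.card_univ])
    (by rw [Finset.coe_singleton]; exact Set.injOn_singleton π o) (by intro e' he'; exact absurd he' (Finset.notMem_empty _))
    (by intro e he; exact absurd he (Finset.notMem_empty _)) (le_of_eq hW.symm)
  rw [add_zero] at h3
  have h4 : Ex p (fun ω => if Disjoint (cu ends' ω o) Y then (0 : ℝ) else 1) = hitP ends' p Y {o} ∅ := by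
    unfold hitP
    refine Ex_congr fun ω => ?_
    have e1 : cls (∅ : Finset E') ω = ω := by
      funext e
      simp [cls]
    rw [e1, cuS, Finset.singleton_biUnion]
  rw [h4]
  refine h3.trans ?_
  rw [Ex_add]
  refine add_le_add ?_ ?_
  · unfold ta
    refine le_of_eq (Ex_congr fun ω => ?_)
    have e2 : (expl ends' π ρ ω (Fintype.card E) {o} ∅).image π = cu ends ω (π o) := (Sf_cl hc ω).2
    rw [e2]
  · exact cmp_up h0 h1 (fun S => WL ends' π Λ S Finset.univ) (fun S S' h => WL_mono hΛ0 h (Finset.Subset.refl _))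

end Pool.Agent.PERC29.PP
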