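import Pool.Agent.Lib.MP_29e17e_pr.P.Hw
import Pool.Agent.Lib.MP_29e17e_pr.Q.Cv

namespace Pool.Agent.PERC29
end Pool.Agent.PERC29
namespace Pool.Agent.PERC29.AE
end Pool.Agent.PERC29.AE
namespace Pool.Agent.PERC29.OB
end Pool.Agent.PERC29.OB
namespace Pool.Agent.PERC29.QQ
end Pool.Agent.PERC29.QQ

set_option autoImplicit false
set_option linter.unusedSectionVars false

/-! Rows 29p-W1 .. W6, B1, B2: weighted sums over the wraps, sums over a class modulo `n`, and the Bonferroni inequality. -/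

open Finset

namespace Pool.Agent.PERC29.PP

open Pool.Agent.PERC29 Pool.Agent.PERC29.AE Pool.Agent.PERC29.OB Pool.Agent.PERC29.QQ

section sums

variable {d l : ℕ}

/-- The class of a point of the box modulo `n`. -/
def cla (n : ℕ) (u : Fin d → Fin l) : Fin d → ZMod n := fun i => ((u i : ℕ) : ZMod n)

/-- The bound of `cos_sum`: a constant times `1/(a² n^d)`. -/
noncomputable def Bn (d n : ℕ) (a : ℝ) : ℝ := 8 ^ (d + 1) / (a ^ 2 * (n : ℝ) ^ d)

private lemma W1_apart {n : ℕ} (u z y : Fin d → Fin l) (h : cla n y = cla n z) (hne : y ≠ z) :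
    n ≤ 2 * nd u y ∨ n ≤ 2 * nd u z := by
  have h1 : ∃ i, y i ≠ z i := by
    by_contra hc
    push Not at hc
    exact hne (funext hc)
  obtain ⟨i, hi⟩ := h1
  have h2 : ((y i : ℕ) : ZMod n) = ((z i : ℕ) : ZMod n) := congrFun h i
  rw [ZMod.natCast_eq_natCast_iff] at h2
  have h3 : (y i : ℕ) ≠ (z i : ℕ) := fun hc => hi (Fin.ext hc)
  have h4 : (n : ℤ) ∣ ((z i : ℕ) : ℤ) - ((y i : ℕ) : ℤ) := (Nat.modEq_iff_dvd).1 h2
  have h5 : (n : ℤ) ≤ |((z i : ℕ) : ℤ) - ((y i : ℕ) : ℤ)| := by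
    apply Int.le_of_dvd
    · rw [abs_pos]
      omega
    · rwa [dvd_abs]
  have h6 : n ≤ ((y i : ℕ) - (z i : ℕ) + ((z i : ℕ) - (y i : ℕ))) := by
    rcases abs_cases (((z i : ℕ) : ℤ) - ((y i : ℕ) : ℤ)) with h | h <;> omega
  have h7 : ((y i : ℕ) - (z i : ℕ) + ((z i : ℕ) - (y i : ℕ))) ≤ nd y z := by
    unfold nd
    exact Finset.le_sup (f := fun i => ((y i : ℕ) - (z i : ℕ) + ((z i : ℕ) - (y i : ℕ)))) (Finset.mem_univ i)
  have h8 := nd_tri y u z
  rw [nd_symm y u] at h8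
  omega

open scoped Classical in
private lemma W1_class (hd : 2 ≤ d) {n : ℕ} [NeZero n] {a : ℝ} (ha : 0 < a) (ha1 : a ≤ 1) (w : Fin d → ZMod n) (u : Fin d → Fin l) :
    ∑ y ∈ Finset.univ.filter (fun y : Fin d → Fin l => cla n y = w), ek (d - 2) a u y ≤ tk (d - 2) (cla n u) w + Bn d n a := by
  have h := class_sum hd ha ha1 w u
  refine le_trans (le_of_eq ?_) h
  refine Finset.sum_congr ?_ (fun _ _ => rfl)
  ext y
  simp only [Finset.mem_filter, Finset.mem_univ, true_and]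
  exact funext_iff

open scoped Classical in
private lemma W1_far (hd : 2 ≤ d) {n : ℕ} [NeZero n] {a : ℝ} (ha : 0 < a) (ha1 : a ≤ 1) (w : Fin d → ZMod n) (u : Fin d → Fin l) :
    ∑ y ∈ Finset.univ.filter (fun y : Fin d → Fin l => cla n y = w ∧ n ≤ 2 * nd u y), ek (d - 2) a u y ≤ Bn d n a := by
  have h := cos_sum hd (Nat.one_le_iff_ne_zero.2 (NeZero.ne n)) ha ha1 w u
  refine le_trans (le_of_eq ?_) h
  refine Finset.sum_congr ?_ (fun _ _ => rfl)
  ext y
  simp only [Finset.mem_filter, Finset.mem_univ, true_and]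
  exact and_congr_left (fun _ => funext_iff)

open scoped Classical in
/-- Row W1. For `y ≠ z` in the same class mod `n`: `nd z y ≥ n`, so `n ≤ 2 nd u y` or `n ≤ 2 nd u z` (`nd_tri`; see the proof of `pair_sum`, Q/Su.lean); by symmetry at most `2 ∑ z of the class, ek u z ∑ over y of the class with n ≤ 2 nd u y of ek u y`; `cos_sum` for the inner sum,
`class_sum` for the outer sum. -/
lemma cls_pair (hd : 2 ≤ d) {n : ℕ} [NeZero n] {a : ℝ} (ha : 0 < a) (ha1 : a ≤ 1) (w : Fin d → ZMod n) (u : Fin d → Fin l) :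
    ∑ z ∈ Finset.univ.filter (fun z : Fin d → Fin l => cla n z = w), ∑ y ∈ Finset.univ.filter (fun y : Fin d → Fin l => cla n y = w ∧ y ≠ z),
      ek (d - 2) a u z * ek (d - 2) a u y ≤ 2 * Bn d n a * (tk (d - 2) (cla n u) w + Bn d n a) := by
  have hB0 : 0 ≤ Bn d n a := by unfold Bn; positivity
  have he0 : ∀ y : Fin d → Fin l, 0 ≤ ek (d - 2) a u y := fun y => ek_nonneg _ _ _ _
  have hcls := W1_class hd ha ha1 w u
  have hfar := W1_far hd ha ha1 w u
  set S := Finset.univ.filter (fun y : Fin d → Fin l => cla n y = w) with hS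
  set T := Finset.univ.filter (fun y : Fin d → Fin l => cla n y = w ∧ n ≤ 2 * nd u y) with hT
  have hS0 : 0 ≤ ∑ y ∈ S, ek (d - 2) a u y := Finset.sum_nonneg (fun y _ => he0 y)
  have hT0 : 0 ≤ ∑ y ∈ T, ek (d - 2) a u y := Finset.sum_nonneg (fun y _ => he0 y)
  have hpt : ∀ z ∈ S, ∑ y ∈ Finset.univ.filter (fun y : Fin d → Fin l => cla n y = w ∧ y ≠ z),
      ek (d - 2) a u z * ek (d - 2) a u y ≤
        ek (d - 2) a u z * (∑ y ∈ T, ek (d - 2) a u y) +
          (if z ∈ T then ek (d - 2) a u z else 0) * (∑ y ∈ S, ek (d - 2) a u y) := by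
    intro z hz
    have hz' : cla n z = w := (Finset.mem_filter.1 hz).2
    by_cases hf : n ≤ 2 * nd u z
    · have hzT : z ∈ T := Finset.mem_filter.2 ⟨Finset.mem_univ _, hz', hf⟩
      rw [if_pos hzT, ← Finset.mul_sum]
      have h1 : ∑ y ∈ Finset.univ.filter (fun y : Fin d → Fin l => cla n y = w ∧ y ≠ z), ek (d - 2) a u y ≤
          ∑ y ∈ S, ek (d - 2) a u y := by
        refine Finset.sum_le_sum_of_subset_of_nonneg ?_ (fun y _ _ => he0 y)
        intro y hy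
        exact Finset.mem_filter.2 ⟨Finset.mem_univ _, (Finset.mem_filter.1 hy).2.1⟩
      have h2 := mul_le_mul_of_nonneg_left h1 (he0 z)
      have h3 : 0 ≤ ek (d - 2) a u z * (∑ y ∈ T, ek (d - 2) a u y) := mul_nonneg (he0 z) hT0
      linarith
    · have hzT : z ∉ T := fun h => hf (Finset.mem_filter.1 h).2.2
      rw [if_neg hzT, zero_mul, add_zero, ← Finset.mul_sum]
      refine mul_le_mul_of_nonneg_left ?_ (he0 z)
      refine Finset.sum_le_sum_of_subset_of_nonneg ?_ (fun y _ _ => he0 y)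
      intro y hy
      obtain ⟨hy1, hy2⟩ := (Finset.mem_filter.1 hy).2
      refine Finset.mem_filter.2 ⟨Finset.mem_univ _, hy1, ?_⟩
      rcases W1_apart u z y (hy1.trans hz'.symm) hy2 with h | h
      · exact h
      · exact absurd h hf
  have hTS : ∑ z ∈ S, (if z ∈ T then ek (d - 2) a u z else 0) = ∑ y ∈ T, ek (d - 2) a u y := by
    rw [← Finset.sum_filter]
    refine Finset.sum_congr ?_ (fun _ _ => rfl)
    ext y
    constructor
    · intro h
      exact (Finset.mem_filter.1 h).2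
    · intro h
      exact Finset.mem_filter.2 ⟨Finset.mem_filter.2 ⟨Finset.mem_univ _, (Finset.mem_filter.1 h).2.1⟩, h⟩
  refine (Finset.sum_le_sum hpt).trans ?_
  rw [Finset.sum_add_distrib, ← Finset.sum_mul, ← Finset.sum_mul, hTS]
  have h4 := mul_le_mul hcls hfar hT0 (hS0.trans hcls)
  have h5 := mul_le_mul hfar hcls hS0 hB0
  linarith

open scoped Classical in
/-- Row W2. Group the sum by the classes (`Finset.sum_fiberwise`), `class_sum`. -/
lemma grp (hd : 2 ≤ d) {n : ℕ} [NeZero n] {a : ℝ} (ha : 0 < a) (ha1 : a ≤ 1) (F : (Fin d → ZMod n) → ℝ) (hF : ∀ v, 0 ≤ F v) (o : Fin d → Fin l) :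
    ∑ u : Fin d → Fin l, ek (d - 2) a o u * F (cla n u) ≤ ∑ v, F v * (tk (d - 2) (cla n o) v + Bn d n a) := by
  rw [← Finset.sum_fiberwise Finset.univ (cla (d := d) (l := l) n) (fun u => ek (d - 2) a o u * F (cla n u))]
  refine Finset.sum_le_sum fun v _ => ?_
  have h1 : ∑ u ∈ Finset.univ.filter (fun u : Fin d → Fin l => cla n u = v), ek (d - 2) a o u * F (cla n u) =
      F v * ∑ u ∈ Finset.univ.filter (fun u : Fin d → Fin l => ∀ i, ((u i : ℕ) : ZMod n) = v i), ek (d - 2) a o u := by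
    rw [Finset.mul_sum]
    refine Finset.sum_congr ?_ ?_
    · refine Finset.filter_congr fun u _ => ?_
      exact funext_iff
    · intro u hu
      have h2 : cla n u = v := funext (Finset.mem_filter.1 hu).2
      rw [h2, mul_comm]
  rw [h1]
  exact mul_le_mul_of_nonneg_left (class_sum hd ha ha1 v o) (hF v)

private lemma W4_sum (hd : 2 ≤ d) {n : ℕ} [NeZero n] (w : Fin d → ZMod n) :
    ∑ v, tk (d - 2) v w ≤ (d * 2 ^ d : ℝ) * (n : ℝ) ^ 2 := by
  refine le_trans (le_of_eq ?_) (t_sum_f (N := n) hd w)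
  refine Finset.sum_congr rfl fun v _ => ?_
  unfold tk
  rw [td_symm]

private lemma W4_card {n : ℕ} [NeZero n] (c : ℝ) : ∑ _v : Fin d → ZMod n, c = (n : ℝ) ^ d * c := by
  rw [Finset.sum_const, Finset.card_univ, Fintype.card_fun, ZMod.card, Fintype.card_fin, nsmul_eq_mul]
  push_cast
  ring

private lemma W4_conv (hd : 5 ≤ d) {n : ℕ} [NeZero n] (u w : Fin d → ZMod n) :
    ∑ v, tk (d - 2) v w * tk (d - 2) u v ≤ C4 d * tk (d - 4) u w := by
  refine le_trans (le_of_eq ?_) (t_conv_f (N := n) hd u w)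
  exact Finset.sum_congr rfl fun v _ => mul_comm _ _

/-- Row W4. Expand the product; `t_conv_f` (O/Kt.lean) for the first term, `t_sum_f` twice (`td_symm`), `∑ v, 1 = n^d`. -/
lemma sum_L (hd : 5 ≤ d) {n : ℕ} [NeZero n] {B : ℝ} (hB : 0 ≤ B) (u w : Fin d → ZMod n) :
    ∑ v, (tk (d - 2) v w + B) * (tk (d - 2) u v + B) ≤ C4 d * tk (d - 4) u w + 2 * (d * 2 ^ d : ℝ) * (n : ℝ) ^ 2 * B + (n : ℝ) ^ d * B ^ 2 := by
  have h1 : ∑ v, (tk (d - 2) v w + B) * (tk (d - 2) u v + B) =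
      ∑ v, tk (d - 2) v w * tk (d - 2) u v + B * ∑ v, tk (d - 2) v w + B * ∑ v, tk (d - 2) u v + ∑ _v : Fin d → ZMod n, B ^ 2 := by
    rw [Finset.mul_sum, Finset.mul_sum, ← Finset.sum_add_distrib, ← Finset.sum_add_distrib, ← Finset.sum_add_distrib]
    exact Finset.sum_congr rfl fun v _ => by ring
  rw [h1, W4_card]
  have h2 := W4_conv hd u w
  have h3 := mul_le_mul_of_nonneg_left (W4_sum (by omega : 2 ≤ d) w) hB
  have h4 := mul_le_mul_of_nonneg_left (t_sum_f (N := n) (by omega : 2 ≤ d) u) hB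
  linarith only [h2, h3, h4]

/-- Row W5. `t_shift_f` (O/Kt.lean) with `W = univ`, `sh v = u + v - w` (injective; `td v (sh v) = td u w` and `td u (sh v) = td v w`: `td` depends only on the difference up to the sign), `r = td u w`; for the second term `∑ v, tk (d-4) v w ≤ d 2^d n^4` by `t_shell_sum` (`td_symm`). -/
lemma sum_4 (hd : 9 ≤ d) {n : ℕ} [NeZero n] {B : ℝ} (hB : 0 ≤ B) (u w : Fin d → ZMod n) :
    ∑ v, tk (d - 4) v w * (tk (d - 2) u v + B) ≤ (d * 2 ^ d : ℝ) * (6 / Real.sqrt ((td u w : ℝ) + 1)) + B * ((d * 2 ^ d : ℝ) * (n : ℝ) ^ 4) := by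
  have hl : 1 ≤ n := Nat.one_le_iff_ne_zero.2 (NeZero.ne n)
  have e1 : ∀ v : Fin d → ZMod n, td u (fun i => u i + v i - w i) = td v w := by
    intro v
    rw [td_symm v w]
    unfold td
    refine Finset.sup_congr rfl fun i _ => ?_
    rw [show u i - (u i + v i - w i) = w i - v i by ring]
  have e2 : ∀ v : Fin d → ZMod n, td v (fun i => u i + v i - w i) = td u w := by
    intro v
    rw [td_symm u w]
    unfold td
    refine Finset.sup_congr rfl fun i _ => ?_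
    rw [show v i - (u i + v i - w i) = w i - u i by ring]
  have hinj : Set.InjOn (fun (v : Fin d → ZMod n) (i : Fin d) => u i + v i - w i)
      ((Finset.univ : Finset (Fin d → ZMod n)) : Set (Fin d → ZMod n)) := by
    intro v _ v' _ h
    funext i
    have h1 : u i + v i - w i = u i + v' i - w i := congrFun h i
    exact add_left_cancel (sub_left_injective h1)
  have h1 := t_shift_f hd u Finset.univ (fun (v : Fin d → ZMod n) (i : Fin d) => u i + v i - w i) hinj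
    (td u w) (fun v _ => e2 v)
  have h2 : ∑ v, tk (d - 2) u v * tk (d - 4) v w ≤
      (d * 2 ^ d : ℝ) * (6 / Real.sqrt ((td u w : ℝ) + 1)) := by
    refine le_trans (le_of_eq ?_) h1
    refine Finset.sum_congr rfl fun v _ => ?_
    have h3 : tk (d - 4) v w = tk (d - 4) u (fun i => u i + v i - w i) := by
      unfold tk
      rw [e1 v]
    rw [h3]
  have h3 : ∑ v, tk (d - 4) v w ≤ (d * 2 ^ d : ℝ) * (n : ℝ) ^ 4 := by
    have h4 := t_shell_sum (by omega : 1 ≤ d) w (fun k => 1 / (1 + (k : ℝ)) ^ (d - 4))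
      (fun k => by positivity)
    have h5 : ∑ v, tk (d - 4) v w = ∑ v, (fun k : ℕ => 1 / (1 + (k : ℝ)) ^ (d - 4)) (td w v) := by
      refine Finset.sum_congr rfl fun v _ => ?_
      unfold tk
      rw [td_symm v w]
    rw [h5]
    refine h4.trans (mul_le_mul_of_nonneg_left ?_ (by positivity))
    calc ∑ k ∈ Finset.range n, ((k : ℝ) + 1) ^ (d - 1) * (1 / (1 + (k : ℝ)) ^ (d - 4))
        ≤ ∑ _k ∈ Finset.range n, (n : ℝ) ^ 3 := by
          refine Finset.sum_le_sum fun k hk => ?_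
          have hk1 : (k : ℝ) + 1 ≤ n := by exact_mod_cast Finset.mem_range.mp hk
          have hk0 : (0 : ℝ) < (k : ℝ) + 1 := by positivity
          have h6 : d - 1 = (d - 4) + 3 := by omega
          rw [h6, pow_add, add_comm (1 : ℝ) (k : ℝ)]
          have h7 : ((k : ℝ) + 1) ^ (d - 4) ≠ 0 := by positivity
          have h8 : ((k : ℝ) + 1) ^ (d - 4) * ((k : ℝ) + 1) ^ 3 * (1 / ((k : ℝ) + 1) ^ (d - 4)) =
              ((k : ℝ) + 1) ^ 3 := by
            field_simp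
          rw [h8]
          exact pow_le_pow_left₀ hk0.le hk1 3
      _ = (n : ℝ) ^ 4 := by rw [Finset.sum_const, Finset.card_range, nsmul_eq_mul]; ring
  calc ∑ v, tk (d - 4) v w * (tk (d - 2) u v + B)
      = ∑ v, tk (d - 2) u v * tk (d - 4) v w + B * ∑ v, tk (d - 4) v w := by
        rw [Finset.mul_sum, ← Finset.sum_add_distrib]
        refine Finset.sum_congr rfl fun v _ => ?_
        ring
    _ ≤ _ := add_le_add h2 (mul_le_mul_of_nonneg_left h3 hB)

/-- Row W5. `t_conv_f`, `t_sum_f`, and `(1+r)^(-(d-4)) ≤ 1/√(r+1)`. -/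
lemma sum_2 (hd : 5 ≤ d) {n : ℕ} [NeZero n] {B : ℝ} (hB : 0 ≤ B) (u w : Fin d → ZMod n) :
    ∑ v, tk (d - 2) v w * (tk (d - 2) u v + B) ≤ C4 d * (1 / Real.sqrt ((td u w : ℝ) + 1)) + B * ((d * 2 ^ d : ℝ) * (n : ℝ) ^ 2) := by
  have h1 : ∑ v, tk (d - 2) v w * (tk (d - 2) u v + B) =
      ∑ v, tk (d - 2) v w * tk (d - 2) u v + B * ∑ v, tk (d - 2) v w := by
    rw [Finset.mul_sum, ← Finset.sum_add_distrib]
    exact Finset.sum_congr rfl fun v _ => by ring
  rw [h1]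
  have h2 := W4_conv hd u w
  have h3 := mul_le_mul_of_nonneg_left (W4_sum (by omega : 2 ≤ d) w) hB
  have h4 : tk (d - 4) u w ≤ 1 / Real.sqrt ((td u w : ℝ) + 1) := by
    unfold tk
    have h5 : (1 : ℝ) ≤ 1 + (td u w : ℝ) := by
      have := Nat.cast_nonneg (α := ℝ) (td u w)
      linarith
    have h6 : Real.sqrt ((td u w : ℝ) + 1) ≤ (1 + (td u w : ℝ)) ^ (d - 4) := by
      rw [add_comm (td u w : ℝ) 1]
      calc Real.sqrt (1 + (td u w : ℝ)) ≤ 1 + (td u w : ℝ) := by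
            rw [Real.sqrt_le_left (by linarith)]
            nlinarith
        _ ≤ (1 + (td u w : ℝ)) ^ (d - 4) := le_self_pow₀ h5 (by omega)
    exact one_div_le_one_div_of_le (Real.sqrt_pos.mpr (by linarith)) h6
  have h7 : 0 ≤ C4 d := by unfold C4; positivity
  have h8 := mul_le_mul_of_nonneg_left h4 h7
  linarith only [h2, h3, h8]

end sums

section wraps

variable {d n N : ℕ} [NeZero n] [Fintype (torG d n).edgeSet] [Fintype (boxG d (2 * N + 1)).edgeSet]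

private lemma W3_nd {d l : ℕ} {x z : Fin d → Fin l} (h : (boxG d l).Adj x z) : nd x z ≤ 1 := by
  obtain ⟨i, hi, hj⟩ := h
  unfold nd
  refine Finset.sup_le fun j _ => ?_
  by_cases hji : j = i
  · subst hji
    omega
  · rw [hj j hji]
    omega

open scoped Classical in
private lemma W3_deg {d l : ℕ} (z : Fin d → Fin l) :
    ∑ x : Fin d → Fin l, (if (boxG d l).Adj x z then (1 : ℝ) else 0) ≤ 2 * d := by
  have h1 : ∀ x : {x // (boxG d l).Adj x z}, ∃ q : Fin d × Bool,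
      ((q.2 = true ∧ (x.1 q.1 : ℕ) + 1 = z q.1) ∨ (q.2 = false ∧ (z q.1 : ℕ) + 1 = x.1 q.1)) ∧
        ∀ j, j ≠ q.1 → x.1 j = z j := by
    rintro ⟨x, i, h | h, hj⟩
    · exact ⟨(i, true), Or.inl ⟨rfl, h⟩, hj⟩
    · exact ⟨(i, false), Or.inr ⟨rfl, h⟩, hj⟩
  choose f hf using h1
  have hinj : Function.Injective f := by
    intro x y hxy
    have hx := hf x
    have hy := hf y
    rw [← hxy] at hy
    apply Subtype.ext
    funext j
    by_cases hj : j = (f x).1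
    · subst hj
      apply Fin.ext
      rcases hx.1 with a | a
      · rcases hy.1 with b | b
        · have := a.2
          have := b.2
          omega
        · have hc := a.1
          rw [b.1] at hc
          exact absurd hc (by decide)
      · rcases hy.1 with b | b
        · have hc := b.1
          rw [a.1] at hc
          exact absurd hc (by decide)
        · have := a.2
          have := b.2
          omega
    · rw [hx.2 j hj, hy.2 j hj]
  have h2 := Fintype.card_le_of_injective f hinj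
  rw [Fintype.card_subtype, Fintype.card_prod, Fintype.card_fin, Fintype.card_bool] at h2
  rw [Finset.sum_boole]
  have h3 : (((Finset.univ.filter (fun x => (boxG d l).Adj x z)).card : ℕ) : ℝ) ≤ ((d * 2 : ℕ) : ℝ) := by
    exact_mod_cast h2
  rw [Nat.cast_mul, Nat.cast_ofNat] at h3
  linarith

/-- The relation of the points of a wrap. -/
private def W3_Q (d n N : ℕ) (t : (Fin d → Fin (2 * N + 1)) × (Fin d → Fin (2 * N + 1)) × (Fin d → Fin (2 * N + 1))) : Prop :=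
  (cla n t.2.2 = cla n t.2.1 ∧ t.2.2 ≠ t.2.1) ∧ (boxG d (2 * N + 1)).Adj t.1 t.2.1

private lemma W3_pr {x y : Fin d → Fin (2 * N + 1)} : pr d n N y = pr d n N x ↔ cla n y = cla n x := by
  unfold pr cla
  constructor
  · intro h
    funext i
    have := congrFun h i
    exact sub_left_injective this
  · intro h
    funext i
    have h2 : ((y i : ℕ) : ZMod n) = ((x i : ℕ) : ZMod n) := congrFun h i
    rw [h2]

open scoped Classical in
private lemma W3_WL (Λ : (Fin d → Fin (2 * N + 1)) → ℝ) (S : Finset (Fin d → Fin (2 * N + 1))) :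
    WL (gends (boxG d (2 * N + 1))) (pr d n N) Λ S Finset.univ =
      ∑ t, (if W3_Q d n N t then Λ t.2.1 else 0) * ((if t.1 ∈ S then (1 : ℝ) else 0) * (if t.2.2 ∈ S then 1 else 0)) := by
  unfold WL Wr
  rw [Finset.sum_filter]
  refine Finset.sum_congr rfl fun t _ => ?_
  have hE : (∃ e' ∈ (Finset.univ : Finset (boxG d (2 * N + 1)).edgeSet), gends (boxG d (2 * N + 1)) e' = s(t.1, t.2.1)) ↔
      (boxG d (2 * N + 1)).Adj t.1 t.2.1 := by
    constructor
    · rintro ⟨e, -, he⟩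
      have h2 : s(t.1, t.2.1) ∈ (boxG d (2 * N + 1)).edgeSet := he ▸ e.2
      exact h2
    · intro h
      exact ⟨⟨s(t.1, t.2.1), h⟩, Finset.mem_univ _, rfl⟩
  by_cases hQ : W3_Q d n N t
  · have hQ' := hQ
    unfold W3_Q at hQ'
    rw [if_pos hQ]
    by_cases h1 : t.1 ∈ S
    · by_cases h2 : t.2.2 ∈ S
      · rw [if_pos h1, if_pos h2, one_mul, mul_one, if_pos]
        exact ⟨h1, h2, W3_pr.2 hQ'.1.1, hQ'.1.2, hE.2 hQ'.2⟩
      · rw [if_pos h1, if_neg h2, mul_zero, mul_zero, if_neg]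
        exact fun h => h2 h.2.1
    · rw [if_neg h1, zero_mul, mul_zero, if_neg]
      exact fun h => h1 h.1
  · rw [if_neg hQ, zero_mul, if_neg]
    intro h
    exact hQ ⟨⟨W3_pr.1 h.2.2.1, h.2.2.2.1⟩, hE.1 h.2.2.2.2⟩

open scoped Classical in
private lemma W3_inner (hd : 2 ≤ d) {p C a : ℝ} (h0 : 0 ≤ p) (h1 : p ≤ 1) (hC : 0 ≤ C) (ha : 0 < a) (ha1 : a ≤ 1)
    (hE : ∀ x y, ta (gends (boxG d (2 * N + 1))) p x y ≤ C * ek (d - 2) a x y) (Λ : (Fin d → Fin (2 * N + 1)) → ℝ) (L : (Fin d → ZMod n) → ℝ)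
    (hL0 : ∀ v, 0 ≤ L v) (hΛ : ∀ z, Λ z ≤ L (cla n z)) (u : Fin d → Fin (2 * N + 1)) :
    ∑ t, (if W3_Q d n N t then Λ t.2.1 else 0) *
      (ta (gends (boxG d (2 * N + 1))) p u t.1 * ta (gends (boxG d (2 * N + 1))) p u t.2.2) ≤
      2 * d * (3 * 2 ^ d) * C ^ 2 * ∑ v, L v * (2 * Bn d n a * (tk (d - 2) (cla n u) v + Bn d n a)) := by
  have hek : ∀ x y : Fin d → Fin (2 * N + 1), 0 ≤ ek (d - 2) a x y := fun x y => ek_nonneg _ _ _ _
  have hta : ∀ x y, 0 ≤ ta (gends (boxG d (2 * N + 1))) p x y := fun x y => ta_nonneg h0 h1 x y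
  have hterm : ∀ x z y : Fin d → Fin (2 * N + 1), (if W3_Q d n N (x, z, y) then Λ z else 0) *
      (ta (gends (boxG d (2 * N + 1))) p u x * ta (gends (boxG d (2 * N + 1))) p u y) ≤
      (if (boxG d (2 * N + 1)).Adj x z then (1 : ℝ) else 0) *
        (if cla n y = cla n z ∧ y ≠ z then
          (3 * 2 ^ d) * C ^ 2 * (L (cla n z) * (ek (d - 2) a u z * ek (d - 2) a u y)) else 0) := by
    intro x z y
    by_cases hQ : W3_Q d n N (x, z, y)
    · have hQ' := hQ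
      unfold W3_Q at hQ'
      have hadj : (boxG d (2 * N + 1)).Adj x z := hQ'.2
      have hcl : cla n y = cla n z ∧ y ≠ z := hQ'.1
      rw [if_pos hQ, if_pos hadj, if_pos hcl, one_mul]
      have e1 : ta (gends (boxG d (2 * N + 1))) p u x ≤ C * ((3 * 2 ^ d) * ek (d - 2) a u z) :=
        (hE u x).trans (mul_le_mul_of_nonneg_left (ek_nb ha ha1 u x z (W3_nd hadj)) hC)
      have e2 := hE u y
      calc Λ z * (ta (gends (boxG d (2 * N + 1))) p u x * ta (gends (boxG d (2 * N + 1))) p u y) ≤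
          L (cla n z) * ((C * ((3 * 2 ^ d) * ek (d - 2) a u z)) * (C * ek (d - 2) a u y)) :=
            mul_le_mul (hΛ z) (mul_le_mul e1 e2 (hta u y) (mul_nonneg hC (mul_nonneg (by positivity) (hek u z))))
              (mul_nonneg (hta u x) (hta u y)) (hL0 _)
        _ = _ := by ring
    · rw [if_neg hQ, zero_mul]
      refine mul_nonneg (by split_ifs <;> norm_num) ?_
      split_ifs
      · have := hek u z
        have := hek u y
        have := hL0 (cla n z)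
        positivity
      · exact le_rfl
  have hnn : ∀ z y : Fin d → Fin (2 * N + 1), 0 ≤ (if cla n y = cla n z ∧ y ≠ z then
          (3 * 2 ^ d) * C ^ 2 * (L (cla n z) * (ek (d - 2) a u z * ek (d - 2) a u y)) else 0) := by
    intro z y
    split_ifs
    · have := hek u z
      have := hek u y
      have := hL0 (cla n z)
      positivity
    · exact le_rfl
  rw [Fintype.sum_prod_type]
  calc ∑ x, ∑ s : (Fin d → Fin (2 * N + 1)) × (Fin d → Fin (2 * N + 1)), (if W3_Q d n N (x, s) then Λ s.1 else 0) *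
        (ta (gends (boxG d (2 * N + 1))) p u x * ta (gends (boxG d (2 * N + 1))) p u s.2)
      = ∑ x, ∑ z, ∑ y, (if W3_Q d n N (x, z, y) then Λ z else 0) *
        (ta (gends (boxG d (2 * N + 1))) p u x * ta (gends (boxG d (2 * N + 1))) p u y) :=
        Finset.sum_congr rfl fun x _ => by rw [Fintype.sum_prod_type]
    _ ≤ ∑ x, ∑ z, ∑ y, (if (boxG d (2 * N + 1)).Adj x z then (1 : ℝ) else 0) *
        (if cla n y = cla n z ∧ y ≠ z then
          (3 * 2 ^ d) * C ^ 2 * (L (cla n z) * (ek (d - 2) a u z * ek (d - 2) a u y)) else 0) :=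
        Finset.sum_le_sum fun x _ => Finset.sum_le_sum fun z _ => Finset.sum_le_sum fun y _ => hterm x z y
    _ = ∑ z, (∑ x, (if (boxG d (2 * N + 1)).Adj x z then (1 : ℝ) else 0)) *
        ∑ y, (if cla n y = cla n z ∧ y ≠ z then
          (3 * 2 ^ d) * C ^ 2 * (L (cla n z) * (ek (d - 2) a u z * ek (d - 2) a u y)) else 0) := by
        rw [Finset.sum_comm]
        refine Finset.sum_congr rfl fun z _ => ?_
        rw [Finset.sum_mul]
        exact Finset.sum_congr rfl fun x _ => by rw [Finset.mul_sum]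
    _ ≤ ∑ z, (2 * d : ℝ) *
        ∑ y, (if cla n y = cla n z ∧ y ≠ z then
          (3 * 2 ^ d) * C ^ 2 * (L (cla n z) * (ek (d - 2) a u z * ek (d - 2) a u y)) else 0) :=
        Finset.sum_le_sum fun z _ => mul_le_mul_of_nonneg_right (W3_deg z) (Finset.sum_nonneg fun y _ => hnn z y)
    _ = 2 * d * (3 * 2 ^ d) * C ^ 2 * ∑ z, L (cla n z) * ∑ y ∈ Finset.univ.filter (fun y : Fin d → Fin (2 * N + 1) =>
          cla n y = cla n z ∧ y ≠ z), ek (d - 2) a u z * ek (d - 2) a u y := by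
        rw [Finset.mul_sum]
        refine Finset.sum_congr rfl fun z _ => ?_
        rw [Finset.sum_filter, Finset.mul_sum, Finset.mul_sum, Finset.mul_sum]
        refine Finset.sum_congr rfl fun y _ => ?_
        split_ifs
        · ring
        · ring
    _ = 2 * d * (3 * 2 ^ d) * C ^ 2 * ∑ v, ∑ z ∈ Finset.univ.filter (fun z : Fin d → Fin (2 * N + 1) => cla n z = v),
          L (cla n z) * ∑ y ∈ Finset.univ.filter (fun y : Fin d → Fin (2 * N + 1) =>
          cla n y = cla n z ∧ y ≠ z), ek (d - 2) a u z * ek (d - 2) a u y := by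
        rw [Finset.sum_fiberwise]
    _ ≤ _ := by
        refine mul_le_mul_of_nonneg_left (Finset.sum_le_sum fun v _ => ?_) (by positivity)
        have e1 : ∑ z ∈ Finset.univ.filter (fun z : Fin d → Fin (2 * N + 1) => cla n z = v),
            L (cla n z) * ∑ y ∈ Finset.univ.filter (fun y : Fin d → Fin (2 * N + 1) =>
            cla n y = cla n z ∧ y ≠ z), ek (d - 2) a u z * ek (d - 2) a u y =
            L v * ∑ z ∈ Finset.univ.filter (fun z : Fin d → Fin (2 * N + 1) => cla n z = v),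
              ∑ y ∈ Finset.univ.filter (fun y : Fin d → Fin (2 * N + 1) =>
              cla n y = v ∧ y ≠ z), ek (d - 2) a u z * ek (d - 2) a u y := by
          rw [Finset.mul_sum]
          refine Finset.sum_congr rfl fun z hz => ?_
          rw [(Finset.mem_filter.1 hz).2]
        rw [e1]
        exact mul_le_mul_of_nonneg_left (cls_pair hd ha ha1 v u) (hL0 v)

open scoped Classical in
/-- Row W3. As `Wr_mean` (Q/Cv.lean, with the private lemmas `C4_*`, which may be copied) with the weight `Λ t2 ≤ L (cla t2)`: `tree_graph`; for each `u` the sum over the wraps `t = (x, z, y)`: `ta u x ≤ C ek u x ≤ C 3 2^d ek u z` (`ek_nb`), `ta u y ≤ C ek u y`, at most `2 d` vertices `x`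
for each `z`; then group the sum over `z` by classes (`Finset.sum_fiberwise`) and use `cls_pair` for each class `v`. (`pr z = pr y` iff `cla z = cla y`.) -/
lemma WL_mean (hd : 2 ≤ d) {p C a : ℝ} (h0 : 0 ≤ p) (h1 : p ≤ 1) (hC : 0 ≤ C) (ha : 0 < a) (ha1 : a ≤ 1)
    (hE : ∀ x y, ta (gends (boxG d (2 * N + 1))) p x y ≤ C * ek (d - 2) a x y) (Λ : (Fin d → Fin (2 * N + 1)) → ℝ) (L : (Fin d → ZMod n) → ℝ)
    (hL0 : ∀ v, 0 ≤ L v) (hΛ0 : ∀ z, 0 ≤ Λ z) (hΛ : ∀ z, Λ z ≤ L (cla n z)) (o : Fin d → Fin (2 * N + 1)) :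
    Ex p (fun ω => WL (gends (boxG d (2 * N + 1))) (pr d n N) Λ (cu (gends (boxG d (2 * N + 1))) ω o) Finset.univ) ≤
      ∑ u, ta (gends (boxG d (2 * N + 1))) p o u * (2 * d * (3 * 2 ^ d) * C ^ 2 * ∑ v, L v * (2 * Bn d n a * (tk (d - 2) (cla n u) v + Bn d n a))) := by
  have e1 : Ex p (fun ω => WL (gends (boxG d (2 * N + 1))) (pr d n N) Λ (cu (gends (boxG d (2 * N + 1))) ω o) Finset.univ) =
      ∑ t, (if W3_Q d n N t then Λ t.2.1 else 0) * Ex p (fun ω =>
        (if t.1 ∈ cu (gends (boxG d (2 * N + 1))) ω o then (1 : ℝ) else 0) *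
          (if t.2.2 ∈ cu (gends (boxG d (2 * N + 1))) ω o then 1 else 0)) := by
    rw [Ex_congr fun ω => W3_WL (n := n) Λ (cu (gends (boxG d (2 * N + 1))) ω o), Ex_sum]
    exact Finset.sum_congr rfl fun t _ => by rw [Ex_mul_left]
  have e2 : ∑ t, (if W3_Q d n N t then Λ t.2.1 else 0) * Ex p (fun ω =>
        (if t.1 ∈ cu (gends (boxG d (2 * N + 1))) ω o then (1 : ℝ) else 0) *
          (if t.2.2 ∈ cu (gends (boxG d (2 * N + 1))) ω o then 1 else 0)) ≤
      ∑ t, (if W3_Q d n N t then Λ t.2.1 else 0) * ∑ u, ta (gends (boxG d (2 * N + 1))) p o u *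
        (ta (gends (boxG d (2 * N + 1))) p u t.1 * ta (gends (boxG d (2 * N + 1))) p u t.2.2) := by
    refine Finset.sum_le_sum fun t _ => mul_le_mul_of_nonneg_left ?_ ?_
    · exact tree_graph h0 h1 o t.1 t.2.2
    · split_ifs
      · exact hΛ0 _
      · exact le_rfl
  have e3 : ∑ t, (if W3_Q d n N t then Λ t.2.1 else 0) * ∑ u, ta (gends (boxG d (2 * N + 1))) p o u *
        (ta (gends (boxG d (2 * N + 1))) p u t.1 * ta (gends (boxG d (2 * N + 1))) p u t.2.2) =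
      ∑ u, ta (gends (boxG d (2 * N + 1))) p o u * ∑ t, (if W3_Q d n N t then Λ t.2.1 else 0) *
        (ta (gends (boxG d (2 * N + 1))) p u t.1 * ta (gends (boxG d (2 * N + 1))) p u t.2.2) := by
    rw [Finset.sum_congr rfl fun t _ => Finset.mul_sum _ _ _, Finset.sum_comm]
    refine Finset.sum_congr rfl fun u _ => ?_
    rw [Finset.mul_sum]
    exact Finset.sum_congr rfl fun t _ => by ring
  rw [e1]
  refine e2.trans ?_
  rw [e3]
  exact Finset.sum_le_sum fun u _ => mul_le_mul_of_nonneg_left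
    (W3_inner hd h0 h1 hC ha ha1 hE Λ L hL0 hΛ u) (ta_nonneg h0 h1 o u)

open scoped Classical in
/-- Row W6. `WL_mean` with `L v = C (tk v w + B)`, `B = Bn d n a`; `sum_L`; then `ta o u ≤ C ek o u` and `grp` with `F v = tk (d-4) v w`, `sum_4`, and `∑ u, ek o u ≤ d 2^d 4/a²` (`sum_ek`). The constant `K` depends only on `d` and `C`. -/
theorem WL_err (d : ℕ) (hd : 9 ≤ d) (C : ℝ) (hC : 0 ≤ C) : ∃ K : ℝ, 0 ≤ K ∧ ∀ (n N : ℕ) [NeZero n] [Fintype (torG d n).edgeSet] [Fintype (boxG d (2 * N + 1)).edgeSet]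
    (p a : ℝ), 0 ≤ p → p ≤ 1 → 0 < a → a ≤ 1 → (∀ x y, ta (gends (boxG d (2 * N + 1))) p x y ≤ C * ek (d - 2) a x y) →
    ∀ (w : Fin d → ZMod n) (Λ : (Fin d → Fin (2 * N + 1)) → ℝ), (∀ z, 0 ≤ Λ z) → (∀ z, Λ z ≤ C * (tk (d - 2) (cla n z) w + Bn d n a)) → ∀ o : Fin d → Fin (2 * N + 1),
    Ex p (fun ω => WL (gends (boxG d (2 * N + 1))) (pr d n N) Λ (cu (gends (boxG d (2 * N + 1))) ω o) Finset.univ) ≤
      K * Bn d n a * (1 / Real.sqrt ((td (cla n o) w : ℝ) + 1) + Bn d n a * (n : ℝ) ^ 4 + 1 / a ^ 2 * (Bn d n a * (n : ℝ) ^ 2 + (n : ℝ) ^ d * Bn d n a ^ 2)) := by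
  have hD0 : (0 : ℝ) ≤ (d : ℝ) * 2 ^ d := by positivity
  have hC4 : 0 ≤ C4 d := by
    unfold C4
    positivity
  have hc1 : (0 : ℝ) ≤ 2 * d * (3 * 2 ^ d) * C ^ 2 := by positivity
  obtain ⟨D, hD⟩ : ∃ D : ℝ, D = (d : ℝ) * 2 ^ d := ⟨_, rfl⟩
  obtain ⟨c1, hc1e⟩ : ∃ c1 : ℝ, c1 = 2 * d * (3 * 2 ^ d) * C ^ 2 := ⟨_, rfl⟩
  rw [← hD] at hD0
  rw [← hc1e] at hc1
  refine ⟨2 * C ^ 2 * c1 * (7 * C4 d * D + 8 * D ^ 2 + 4 * D), by positivity, ?_⟩
  intro n N _ _ _ p a hp0 hp1 ha ha1 hta w Λ hΛ0 hΛ o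
  have hn0 : (0 : ℝ) ≤ (n : ℝ) := Nat.cast_nonneg n
  have hB0 : 0 ≤ Bn d n a := by
    unfold Bn
    positivity
  have htk : ∀ (k : ℕ) (x y : Fin d → ZMod n), 0 ≤ tk k x y := fun k x y => by
    unfold tk
    positivity
  have h1 := WL_mean (by omega) hp0 hp1 hC ha ha1 hta Λ (fun v => C * (tk (d - 2) v w + Bn d n a))
    (fun v => mul_nonneg hC (add_nonneg (htk _ _ _) hB0)) hΛ0 hΛ o
  refine h1.trans ?_
  clear h1
  rw [← hc1e]
  obtain ⟨B, hB⟩ : ∃ B : ℝ, B = Bn d n a := ⟨_, rfl⟩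
  rw [← hB] at hB0 ⊢
  obtain ⟨E, hE⟩ : ∃ E : ℝ, E = 2 * D * (n : ℝ) ^ 2 * B + (n : ℝ) ^ d * B ^ 2 := ⟨_, rfl⟩
  have hE0 : 0 ≤ E := by
    rw [hE]
    positivity
  have h2 : ∀ u : Fin d → Fin (2 * N + 1),
      ∑ v, C * (tk (d - 2) v w + B) * (2 * B * (tk (d - 2) (cla n u) v + B)) ≤
        2 * B * C * (C4 d * tk (d - 4) (cla n u) w + E) := by
    intro u
    have e1 : ∑ v, C * (tk (d - 2) v w + B) * (2 * B * (tk (d - 2) (cla n u) v + B)) =
        2 * B * C * ∑ v, (tk (d - 2) v w + B) * (tk (d - 2) (cla n u) v + B) := by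
      rw [Finset.mul_sum]
      exact Finset.sum_congr rfl fun v _ => by ring
    rw [e1]
    refine mul_le_mul_of_nonneg_left ?_ (by positivity)
    have e2 := sum_L (by omega : 5 ≤ d) hB0 (cla n u) w
    rw [hE, hD]
    linarith
  have h3 : ∑ u, ta (gends (boxG d (2 * N + 1))) p o u *
      (c1 * ∑ v, C * (tk (d - 2) v w + B) * (2 * B * (tk (d - 2) (cla n u) v + B))) ≤
      ∑ u, (C * ek (d - 2) a o u) * (c1 * (2 * B * C * (C4 d * tk (d - 4) (cla n u) w + E))) := by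
    refine Finset.sum_le_sum fun u _ => ?_
    have e3 : 0 ≤ ∑ v, C * (tk (d - 2) v w + B) * (2 * B * (tk (d - 2) (cla n u) v + B)) :=
      Finset.sum_nonneg fun v _ => mul_nonneg (mul_nonneg hC (add_nonneg (htk _ _ _) hB0))
        (mul_nonneg (by positivity) (add_nonneg (htk _ _ _) hB0))
    exact mul_le_mul (hta o u) (mul_le_mul_of_nonneg_left (h2 u) hc1) (mul_nonneg hc1 e3)
      (mul_nonneg hC (ek_nonneg _ _ _ _))
  refine h3.trans ?_
  clear h3 h2
  have h4 : ∑ u, (C * ek (d - 2) a o u) * (c1 * (2 * B * C * (C4 d * tk (d - 4) (cla n u) w + E))) =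
      2 * C ^ 2 * c1 * B * (C4 d * ∑ u, ek (d - 2) a o u * tk (d - 4) (cla n u) w + E * ∑ u, ek (d - 2) a o u) := by
    rw [Finset.mul_sum, Finset.mul_sum, ← Finset.sum_add_distrib, Finset.mul_sum]
    exact Finset.sum_congr rfl fun u _ => by ring
  rw [h4]
  have h5 : ∑ u, ek (d - 2) a o u * tk (d - 4) (cla n u) w ≤
      D * (6 / Real.sqrt ((td (cla n o) w : ℝ) + 1)) + B * (D * (n : ℝ) ^ 4) := by
    have e1 := grp (by omega : 2 ≤ d) ha ha1 (fun v => tk (d - 4) v w) (fun v => htk _ _ _) o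
    have e2 := sum_4 hd hB0 (cla n o) w
    rw [← hB] at e1
    rw [hD]
    exact e1.trans e2
  have h6 : ∑ u, ek (d - 2) a o u ≤ D * (4 / a ^ 2) := by
    rw [hD]
    exact sum_ek (by omega) ha ha1 o
  obtain ⟨s, hs⟩ : ∃ s : ℝ, s = 1 / Real.sqrt ((td (cla n o) w : ℝ) + 1) := ⟨_, rfl⟩
  have hs0 : 0 ≤ s := by
    rw [hs]
    positivity
  have h5' : ∑ u, ek (d - 2) a o u * tk (d - 4) (cla n u) w ≤ 6 * D * s + D * (B * (n : ℝ) ^ 4) := by
    refine h5.trans (le_of_eq ?_)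
    rw [hs]
    ring
  rw [← hs]
  obtain ⟨t, ht⟩ : ∃ t : ℝ, t = 1 / a ^ 2 := ⟨_, rfl⟩
  have ht0 : 0 ≤ t := by
    rw [ht]
    positivity
  have h6' : ∑ u, ek (d - 2) a o u ≤ 4 * D * t := by
    refine h6.trans (le_of_eq ?_)
    rw [ht]
    ring
  rw [← ht]
  have h7 : C4 d * ∑ u, ek (d - 2) a o u * tk (d - 4) (cla n u) w + E * ∑ u, ek (d - 2) a o u ≤
      C4 d * (6 * D * s + D * (B * (n : ℝ) ^ 4)) + E * (4 * D * t) :=
    add_le_add (mul_le_mul_of_nonneg_left h5' hC4) (mul_le_mul_of_nonneg_left h6' hE0)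
  have h8 : C4 d * (6 * D * s + D * (B * (n : ℝ) ^ 4)) + E * (4 * D * t) ≤
      (7 * C4 d * D + 8 * D ^ 2 + 4 * D) * (s + B * (n : ℝ) ^ 4 + t * (B * (n : ℝ) ^ 2 + (n : ℝ) ^ d * B ^ 2)) := by
    rw [hE]
    obtain ⟨x, hx⟩ : ∃ x : ℝ, x = B * (n : ℝ) ^ 4 := ⟨_, rfl⟩
    obtain ⟨y, hy⟩ : ∃ y : ℝ, y = t * (B * (n : ℝ) ^ 2) := ⟨_, rfl⟩
    obtain ⟨z, hz⟩ : ∃ z : ℝ, z = t * ((n : ℝ) ^ d * B ^ 2) := ⟨_, rfl⟩
    have hx0 : 0 ≤ x := by
      rw [hx]
      positivity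
    have hy0 : 0 ≤ y := by
      rw [hy]
      positivity
    have hz0 : 0 ≤ z := by
      rw [hz]
      positivity
    have e1 : C4 d * (6 * D * s + D * (B * (n : ℝ) ^ 4)) + (2 * D * (n : ℝ) ^ 2 * B + (n : ℝ) ^ d * B ^ 2) * (4 * D * t) =
        6 * (C4 d * D) * s + (C4 d * D) * x + 8 * D ^ 2 * y + 4 * D * z := by
      rw [hx, hy, hz]
      ring
    have e2 : (7 * C4 d * D + 8 * D ^ 2 + 4 * D) * (s + B * (n : ℝ) ^ 4 + t * (B * (n : ℝ) ^ 2 + (n : ℝ) ^ d * B ^ 2)) =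
        (7 * (C4 d * D) + 8 * D ^ 2 + 4 * D) * s + (7 * (C4 d * D) + 8 * D ^ 2 + 4 * D) * x +
          (7 * (C4 d * D) + 8 * D ^ 2 + 4 * D) * y + (7 * (C4 d * D) + 8 * D ^ 2 + 4 * D) * z := by
      rw [hx, hy, hz]
      ring
    rw [e1, e2]
    have q1 : 0 ≤ C4 d * D := mul_nonneg hC4 hD0
    have q2 : 0 ≤ D ^ 2 := by positivity
    have f1 : 6 * (C4 d * D) * s ≤ (7 * (C4 d * D) + 8 * D ^ 2 + 4 * D) * s :=
      mul_le_mul_of_nonneg_right (by linarith) hs0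
    have f2 : (C4 d * D) * x ≤ (7 * (C4 d * D) + 8 * D ^ 2 + 4 * D) * x :=
      mul_le_mul_of_nonneg_right (by linarith) hx0
    have f3 : 8 * D ^ 2 * y ≤ (7 * (C4 d * D) + 8 * D ^ 2 + 4 * D) * y :=
      mul_le_mul_of_nonneg_right (by linarith) hy0
    have f4 : 4 * D * z ≤ (7 * (C4 d * D) + 8 * D ^ 2 + 4 * D) * z :=
      mul_le_mul_of_nonneg_right (by linarith) hz0
    linarith
  calc 2 * C ^ 2 * c1 * B * (C4 d * ∑ u, ek (d - 2) a o u * tk (d - 4) (cla n u) w + E * ∑ u, ek (d - 2) a o u)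
      ≤ 2 * C ^ 2 * c1 * B * ((7 * C4 d * D + 8 * D ^ 2 + 4 * D) *
          (s + B * (n : ℝ) ^ 4 + t * (B * (n : ℝ) ^ 2 + (n : ℝ) ^ d * B ^ 2))) :=
        mul_le_mul_of_nonneg_left (h7.trans h8) (by positivity)
    _ = 2 * C ^ 2 * c1 * (7 * C4 d * D + 8 * D ^ 2 + 4 * D) * B *
          (s + B * (n : ℝ) ^ 4 + t * (B * (n : ℝ) ^ 2 + (n : ℝ) ^ d * B ^ 2)) := by ring

end wraps

section bonf

variable {V : Type} [Fintype V] [DecidableEq V] {E : Type} [Fintype E] [DecidableEq E] {ends : E → Sym2 V}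

private lemma B1_ind (q : Prop) [Decidable q] : (0 : ℝ) ≤ (if q then 1 else 0) := by
  split_ifs
  · exact zero_le_one
  · exact le_rfl

open scoped Classical in
/-- Row B1. Pointwise: if `m` points of `Y` are in `cu ω o` then `m ≤ 1[m ≥ 1] + m (m - 1)` (natural numbers), and `m (m-1)` is the double sum. -/
lemma bonf {p : ℝ} (h0 : 0 ≤ p) (h1 : p ≤ 1) (o : V) (Y : Finset V) :
    ∑ y ∈ Y, ta ends p o y ≤ Ex p (fun ω => if Disjoint (cu ends ω o) Y then (0 : ℝ) else 1) +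
      ∑ y ∈ Y, ∑ z ∈ Y.filter (fun z => z ≠ y), Ex p (fun ω => (if y ∈ cu ends ω o then (1 : ℝ) else 0) * (if z ∈ cu ends ω o then 1 else 0)) := by
  have hL : ∑ y ∈ Y, ta ends p o y = Ex p (fun ω => ∑ y ∈ Y, (if y ∈ cu ends ω o then (1 : ℝ) else 0)) := by
    rw [Ex_sum]
    rfl
  have hR : Ex p (fun ω => (if Disjoint (cu ends ω o) Y then (0 : ℝ) else 1) +
      ∑ y ∈ Y, ∑ z ∈ Y.filter (fun z => z ≠ y), (if y ∈ cu ends ω o then (1 : ℝ) else 0) * (if z ∈ cu ends ω o then 1 else 0)) =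
      Ex p (fun ω => if Disjoint (cu ends ω o) Y then (0 : ℝ) else 1) +
      ∑ y ∈ Y, ∑ z ∈ Y.filter (fun z => z ≠ y), Ex p (fun ω => (if y ∈ cu ends ω o then (1 : ℝ) else 0) * (if z ∈ cu ends ω o then 1 else 0)) := by
    rw [Ex_add, Ex_sum]
    congr 1
    exact Finset.sum_congr rfl fun y _ => Ex_sum _ _ _
  rw [hL, ← hR]
  refine Ex_mono h0 h1 fun ω => ?_
  have hnn : ∀ y ∈ Y, 0 ≤ ∑ z ∈ Y.filter (fun z => z ≠ y), (if y ∈ cu ends ω o then (1 : ℝ) else 0) * (if z ∈ cu ends ω o then 1 else 0) := by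
    intro y _
    exact Finset.sum_nonneg fun z _ => mul_nonneg (B1_ind _) (B1_ind _)
  by_cases hD : Disjoint (cu ends ω o) Y
  · rw [if_pos hD, zero_add]
    refine le_trans (le_of_eq (Finset.sum_eq_zero fun y hy => ?_)) (Finset.sum_nonneg hnn)
    exact if_neg fun h => (Finset.disjoint_left.1 hD) h hy
  · rw [if_neg hD]
    obtain ⟨y0, hy0, hy0'⟩ := Finset.not_disjoint_iff.1 hD
    have h2 := Finset.single_le_sum (f := fun y => ∑ z ∈ Y.filter (fun z => z ≠ y), (if y ∈ cu ends ω o then (1 : ℝ) else 0) *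
      (if z ∈ cu ends ω o then 1 else 0)) hnn hy0'
    refine le_trans (le_of_eq ?_) (add_le_add le_rfl h2)
    rw [← Finset.add_sum_erase Y _ hy0', if_pos hy0]
    congr 1
    simp only [one_mul]
    refine Finset.sum_congr ?_ fun _ _ => rfl
    ext z
    rw [Finset.mem_erase, Finset.mem_filter]
    exact and_comm

open scoped Classical in
/-- Row B1. Union bound. -/
lemma hit_sum {p : ℝ} (h0 : 0 ≤ p) (h1 : p ≤ 1) (o : V) (Y : Finset V) :
    Ex p (fun ω => if Disjoint (cu ends ω o) Y then (0 : ℝ) else 1) ≤ ∑ y ∈ Y, ta ends p o y := by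
  have hL : ∑ y ∈ Y, ta ends p o y = Ex p (fun ω => ∑ y ∈ Y, (if y ∈ cu ends ω o then (1 : ℝ) else 0)) := by
    rw [Ex_sum]
    rfl
  rw [hL]
  refine Ex_mono h0 h1 fun ω => ?_
  by_cases hD : Disjoint (cu ends ω o) Y
  · rw [if_pos hD]
    exact Finset.sum_nonneg fun z _ => B1_ind _
  · rw [if_neg hD]
    obtain ⟨y0, hy0, hy0'⟩ := Finset.not_disjoint_iff.1 hD
    have h2 := Finset.single_le_sum (f := fun y => (if y ∈ cu ends ω o then (1 : ℝ) else 0)) (fun z _ => B1_ind _) hy0'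
    refine le_trans (le_of_eq ?_) h2
    exact (if_pos hy0).symm

open scoped Classical in
/-- Row B2. `tree_graph` for each pair, `ta ≤ C ek`, `cls_pair` for each `u` (more terms), then `grp` with `F v = tk (d-2) v w`, `sum_2`, `sum_ek`. The constant `K` depends only on `d` and `C`. -/
theorem pair_err (d : ℕ) (hd : 9 ≤ d) (C : ℝ) (hC : 0 ≤ C) : ∃ K : ℝ, 0 ≤ K ∧ ∀ (n l : ℕ) [NeZero n] [Fintype (boxG d l).edgeSet]
    (p a : ℝ), 0 ≤ p → p ≤ 1 → 0 < a → a ≤ 1 → (∀ x y, ta (gends (boxG d l)) p x y ≤ C * ek (d - 2) a x y) →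
    ∀ (w : Fin d → ZMod n) (Y : Finset (Fin d → Fin l)), (∀ y ∈ Y, cla n y = w) → ∀ o : Fin d → Fin l,
    ∑ y ∈ Y, ∑ z ∈ Y.filter (fun z => z ≠ y), Ex p (fun ω => (if y ∈ cu (gends (boxG d l)) ω o then (1 : ℝ) else 0) * (if z ∈ cu (gends (boxG d l)) ω o then 1 else 0)) ≤
      K * Bn d n a * (1 / Real.sqrt ((td (cla n o) w : ℝ) + 1) + Bn d n a * (n : ℝ) ^ 2 + 1 / a ^ 2 * Bn d n a) := by
  have hC4 : 0 ≤ C4 d := by
    unfold C4
    positivity
  have hD0 : (0 : ℝ) ≤ (d * 2 ^ d : ℝ) := by positivity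
  refine ⟨2 * C ^ 3 * (C4 d + 4 * (d * 2 ^ d : ℝ)), by positivity, ?_⟩
  intro n l _ _ p a h0 h1 ha ha1 hE w Y hY o
  have hB0 : 0 ≤ Bn d n a := by
    unfold Bn
    positivity
  obtain ⟨B, hB⟩ : ∃ B : ℝ, B = Bn d n a := ⟨_, rfl⟩
  have hta : ∀ x y, 0 ≤ ta (gends (boxG d l)) p x y := fun x y => ta_nonneg h0 h1 x y
  have hek : ∀ x y : Fin d → Fin l, 0 ≤ ek (d - 2) a x y := fun x y => ek_nonneg _ _ _ _
  have e1 : ∑ y ∈ Y, ∑ z ∈ Y.filter (fun z => z ≠ y), Ex p (fun ω => (if y ∈ cu (gends (boxG d l)) ω o then (1 : ℝ) else 0) * (if z ∈ cu (gends (boxG d l)) ω o then 1 else 0)) ≤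
      ∑ y ∈ Y, ∑ z ∈ Y.filter (fun z => z ≠ y), ∑ u, (C * ek (d - 2) a o u) * ((C * ek (d - 2) a u y) * (C * ek (d - 2) a u z)) := by
    refine Finset.sum_le_sum fun y _ => Finset.sum_le_sum fun z _ => (tree_graph h0 h1 o y z).trans ?_
    refine Finset.sum_le_sum fun u _ => ?_
    exact mul_le_mul (hE o u) (mul_le_mul (hE u y) (hE u z) (hta _ _) (mul_nonneg hC (hek _ _)))
      (mul_nonneg (hta _ _) (hta _ _)) (mul_nonneg hC (hek _ _))
  have e2 : ∑ y ∈ Y, ∑ z ∈ Y.filter (fun z => z ≠ y), ∑ u, (C * ek (d - 2) a o u) * ((C * ek (d - 2) a u y) * (C * ek (d - 2) a u z)) =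
      ∑ u, C ^ 3 * (ek (d - 2) a o u * ∑ y ∈ Y, ∑ z ∈ Y.filter (fun z => z ≠ y), ek (d - 2) a u y * ek (d - 2) a u z) := by
    rw [Finset.sum_congr rfl fun y _ => Finset.sum_comm, Finset.sum_comm]
    refine Finset.sum_congr rfl fun u _ => ?_
    rw [Finset.mul_sum, Finset.mul_sum]
    refine Finset.sum_congr rfl fun y _ => ?_
    rw [Finset.mul_sum, Finset.mul_sum]
    exact Finset.sum_congr rfl fun z _ => by ring
  have e3 : ∀ u : Fin d → Fin l, ∑ y ∈ Y, ∑ z ∈ Y.filter (fun z => z ≠ y), ek (d - 2) a u y * ek (d - 2) a u z ≤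
      2 * B * (tk (d - 2) (cla n u) w + B) := by
    intro u
    have h2 := cls_pair (l := l) (by omega : 2 ≤ d) ha ha1 w u
    rw [← hB] at h2
    refine le_trans ?_ h2
    calc ∑ y ∈ Y, ∑ z ∈ Y.filter (fun z => z ≠ y), ek (d - 2) a u y * ek (d - 2) a u z
        ≤ ∑ y ∈ Y, ∑ z ∈ Finset.univ.filter (fun z : Fin d → Fin l => cla n z = w ∧ z ≠ y), ek (d - 2) a u y * ek (d - 2) a u z := by
          refine Finset.sum_le_sum fun y _ => ?_
          refine Finset.sum_le_sum_of_subset_of_nonneg ?_ fun z _ _ => mul_nonneg (hek _ _) (hek _ _)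
          intro z hz
          rw [Finset.mem_filter] at hz ⊢
          exact ⟨Finset.mem_univ _, hY z hz.1, hz.2⟩
      _ ≤ _ := by
          refine Finset.sum_le_sum_of_subset_of_nonneg ?_ fun y _ _ =>
            Finset.sum_nonneg fun z _ => mul_nonneg (hek _ _) (hek _ _)
          intro y hy
          rw [Finset.mem_filter]
          exact ⟨Finset.mem_univ _, hY y hy⟩
  have e4 : ∑ u, C ^ 3 * (ek (d - 2) a o u * ∑ y ∈ Y, ∑ z ∈ Y.filter (fun z => z ≠ y), ek (d - 2) a u y * ek (d - 2) a u z) ≤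
      2 * C ^ 3 * B * (∑ u, ek (d - 2) a o u * tk (d - 2) (cla n u) w + B * ∑ u, ek (d - 2) a o u) := by
    have h2 : 2 * C ^ 3 * B * (∑ u, ek (d - 2) a o u * tk (d - 2) (cla n u) w + B * ∑ u, ek (d - 2) a o u) =
        ∑ u, C ^ 3 * (ek (d - 2) a o u * (2 * B * (tk (d - 2) (cla n u) w + B))) := by
      rw [Finset.mul_sum, ← Finset.sum_add_distrib, Finset.mul_sum]
      exact Finset.sum_congr rfl fun u _ => by ring
    rw [h2]
    refine Finset.sum_le_sum fun u _ => mul_le_mul_of_nonneg_left ?_ (by positivity)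
    exact mul_le_mul_of_nonneg_left (e3 u) (hek _ _)
  have hB0' : 0 ≤ B := by
    rw [hB]
    exact hB0
  have e5 : ∑ u, ek (d - 2) a o u * tk (d - 2) (cla n u) w ≤
      C4 d * (1 / Real.sqrt ((td (cla n o) w : ℝ) + 1)) + B * ((d * 2 ^ d : ℝ) * (n : ℝ) ^ 2) := by
    have h2 := grp (n := n) (by omega : 2 ≤ d) ha ha1 (fun v => tk (d - 2) v w)
      (fun v => by unfold tk; positivity) o
    rw [← hB] at h2
    exact h2.trans (sum_2 (by omega) hB0' (cla n o) w)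
  have e6 := sum_ek (by omega : 2 ≤ d) ha ha1 o
  obtain ⟨s, hs⟩ : ∃ s : ℝ, s = 1 / Real.sqrt ((td (cla n o) w : ℝ) + 1) := ⟨_, rfl⟩
  have hs0 : 0 ≤ s := by
    rw [hs]
    positivity
  rw [← hB, ← hs]
  rw [← hs] at e5
  refine e1.trans (e2.le.trans (e4.trans ?_))
  have e7 : ∑ u, ek (d - 2) a o u * tk (d - 2) (cla n u) w + B * ∑ u, ek (d - 2) a o u ≤
      (C4 d + 4 * (d * 2 ^ d : ℝ)) * (s + B * (n : ℝ) ^ 2 + 1 / a ^ 2 * B) := by
    have k1 : C4 d * s ≤ (C4 d + 4 * (d * 2 ^ d : ℝ)) * s :=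
      mul_le_mul_of_nonneg_right (by linarith) hs0
    have k2 : B * ((d * 2 ^ d : ℝ) * (n : ℝ) ^ 2) ≤ (C4 d + 4 * (d * 2 ^ d : ℝ)) * (B * (n : ℝ) ^ 2) := by
      have k3 : B * ((d * 2 ^ d : ℝ) * (n : ℝ) ^ 2) = (d * 2 ^ d : ℝ) * (B * (n : ℝ) ^ 2) := by ring
      rw [k3]
      exact mul_le_mul_of_nonneg_right (by linarith) (by positivity)
    have k4 : B * ∑ u, ek (d - 2) a o u ≤ (C4 d + 4 * (d * 2 ^ d : ℝ)) * (1 / a ^ 2 * B) := by
      have k5 := mul_le_mul_of_nonneg_left e6 hB0'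
      have k6 : B * ((d * 2 ^ d : ℝ) * (4 / a ^ 2)) = 4 * (d * 2 ^ d : ℝ) * (1 / a ^ 2 * B) := by ring
      rw [k6] at k5
      refine k5.trans (mul_le_mul_of_nonneg_right (by linarith) (by positivity))
    linarith
  have k8 := mul_le_mul_of_nonneg_left e7 (by positivity : 0 ≤ 2 * C ^ 3 * B)
  refine k8.trans (le_of_eq ?_)
  ring

end bonf

end Pool.Agent.PERC29.PP
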